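import Pool.Agent.helper15.P2.SpecC
import Pool.Agent.helper49.P2.OSG

set_option autoImplicit false

/-!
# Project P2 (MP_063734_an), row BI2: a quantitative lower bound for bands
-/

open scoped ContDiff Topology ComplexConjugate ENNReal
open MeasureTheory Filter Set Metric

namespace Pool.Agent.P2B

open Pool.Agent.P2 Pool.Agent.P2I

/-- the derivative of `(x, v) ↦ (H (x, v), v)` as an equivalence -/
theorem BI2_equiv (L : ℂ × ℂ →L[ℂ] ℂ) (h : L (1, 0) ≠ 0) :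
    ∃ e : (ℂ × ℂ) ≃L[ℂ] (ℂ × ℂ), (e : ℂ × ℂ →L[ℂ] ℂ × ℂ) = L.prod (ContinuousLinearMap.snd ℂ ℂ ℂ) := by
  have hL : ∀ p : ℂ × ℂ, L p = p.1 * L (1, 0) + p.2 * L (0, 1) := by
    intro p
    have e1 : p = p.1 • ((1 : ℂ), (0 : ℂ)) + p.2 • ((0 : ℂ), (1 : ℂ)) := by
      ext <;> simp
    conv_lhs => rw [e1]
    rw [map_add, map_smul, map_smul, smul_eq_mul, smul_eq_mul]
  refine ⟨ContinuousLinearEquiv.equivOfInverse (L.prod (ContinuousLinearMap.snd ℂ ℂ ℂ))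
    (((L (1, 0))⁻¹ • (ContinuousLinearMap.fst ℂ ℂ ℂ - L (0, 1) • ContinuousLinearMap.snd ℂ ℂ ℂ)).prod
      (ContinuousLinearMap.snd ℂ ℂ ℂ)) ?_ ?_, ?_⟩
  · intro p
    ext
    · simp only [ContinuousLinearMap.prod_apply, _root_.smul_apply,
        _root_.sub_apply, ContinuousLinearMap.coe_fst', ContinuousLinearMap.coe_snd',
        smul_eq_mul]
      rw [hL p]
      field_simp
      ring
    · simp
  · intro p
    ext
    · simp only [ContinuousLinearMap.prod_apply, _root_.smul_apply,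
        _root_.sub_apply, ContinuousLinearMap.coe_fst', ContinuousLinearMap.coe_snd',
        smul_eq_mul]
      rw [hL]
      field_simp
      ring
    · simp
  · ext <;> simp

theorem BI2_mem (x0 x v : ℂ) (s : ℝ) :
    ((x, v) : ℂ × ℂ) ∈ ball ((x0, 0) : ℂ × ℂ) s ↔ x ∈ ball x0 s ∧ v ∈ ball (0 : ℂ) s := by
  rw [← ball_prod_same]
  exact Iff.rfl

/-- a quantitative implicit function theorem -/
theorem BI2_imp (H : ℂ × ℂ → ℂ) (x0 : ℂ) (d M ρ : ℝ) (hd : 0 < d) (hd1 : d ≤ 1) (hM : 1 ≤ M)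
    (hH : DifferentiableOn ℂ H (ball ((x0, 0) : ℂ × ℂ) d))
    (hb : ∀ p ∈ ball ((x0, 0) : ℂ × ℂ) d, ‖H p‖ ≤ M) (h0 : H (x0, 0) = 0)
    (hne : fderiv ℂ H (x0, 0) (1, 0) ≠ 0)
    (hρ : ρ = ‖fderiv ℂ H (x0, 0) (1, 0)‖ ^ 2 * d ^ 3 / (8192 * M ^ 2)) :
    ∃ Y : ℂ × ℂ → ℂ, DifferentiableOn ℂ Y (ball (0 : ℂ) ρ ×ˢ ball (0 : ℂ) ρ) ∧ Y (0, 0) = x0 ∧
      ∀ t ∈ ball (0 : ℂ) ρ, ∀ v ∈ ball (0 : ℂ) ρ, ((Y (t, v), v) : ℂ × ℂ) ∈ ball ((x0, 0) : ℂ × ℂ) d ∧
        H (Y (t, v), v) = t := by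
  have hM0 : 0 < M := by linarith
  have hop : IsOpen (ball ((x0, 0) : ℂ × ℂ) d) := isOpen_ball
  have hn1 : ‖((1 : ℂ), (0 : ℂ))‖ = 1 := by simp [Prod.norm_def]
  have hn2 : ‖((0 : ℂ), (1 : ℂ))‖ = 1 := by simp [Prod.norm_def]
  -- the first derivative
  have hf1 : ∀ p ∈ ball ((x0, 0) : ℂ × ℂ) (d / 2), ‖fderiv ℂ H p‖ ≤ 4 * M / d := by
    intro p hp
    rw [mem_ball] at hp
    have hsub : ball p (d / 2) ⊆ ball ((x0, 0) : ℂ × ℂ) d := ball_subset_ball' (by linarith)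
    have h1 := OSG_bound (x := p) (R := d / 2) (M := M) (by linarith) (hH.mono hsub)
      (fun y hy => hb y (hsub hy))
    refine h1.trans (le_of_eq ?_)
    field_simp
    norm_num
  obtain ⟨g, hgdef⟩ : ∃ g : ℂ × ℂ → ℂ, g = fun p => fderiv ℂ H p (1, 0) := ⟨_, rfl⟩
  have hg : DifferentiableOn ℂ g (ball ((x0, 0) : ℂ × ℂ) d) := by
    rw [hgdef]; exact OSG_dir hop hH (1, 0)
  have hgb : ∀ p ∈ ball ((x0, 0) : ℂ × ℂ) (d / 2), ‖g p‖ ≤ 4 * M / d := by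
    intro p hp
    rw [hgdef]
    have h1 := (fderiv ℂ H p).le_opNorm (1, 0)
    rw [hn1, mul_one] at h1
    exact h1.trans (hf1 p hp)
  have hf2 : ∀ p ∈ ball ((x0, 0) : ℂ × ℂ) (d / 4), ‖fderiv ℂ g p‖ ≤ 32 * M / d ^ 2 := by
    intro p hp
    rw [mem_ball] at hp
    have hsub : ball p (d / 4) ⊆ ball ((x0, 0) : ℂ × ℂ) (d / 2) := ball_subset_ball' (by linarith)
    have h1 := OSG_bound (x := p) (R := d / 4) (M := 4 * M / d) (by linarith)
      (hg.mono (hsub.trans (ball_subset_ball (by linarith)))) (fun y hy => hgb y (hsub hy))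
    refine h1.trans (le_of_eq ?_)
    field_simp
    norm_num
  obtain ⟨A, hA⟩ : ∃ A, A = ‖g (x0, 0)‖ := ⟨_, rfl⟩
  have hA0 : 0 < A := by
    rw [hA, hgdef]; exact norm_pos_iff.2 hne
  have hcen : ((x0, 0) : ℂ × ℂ) ∈ ball ((x0, 0) : ℂ × ℂ) (d / 2) := mem_ball_self (by linarith)
  have hA1 : A ≤ 4 * M / d := by rw [hA]; exact hgb _ hcen
  obtain ⟨s, hs⟩ : ∃ s, s = A * d ^ 2 / (128 * M) := ⟨_, rfl⟩
  have hs0 : 0 < s := by rw [hs]; positivity
  have hsd : s ≤ d / 32 := by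
    rw [hs, div_le_iff₀ (by positivity)]
    have h1 : A * d ^ 2 ≤ 4 * M / d * d ^ 2 := mul_le_mul_of_nonneg_right hA1 (by positivity)
    have h2 : 4 * M / d * d ^ 2 = d / 32 * (128 * M) := by
      field_simp
      ring
    linarith
  have hkey : ∀ p ∈ ball ((x0, 0) : ℂ × ℂ) s, ‖g p - g (x0, 0)‖ ≤ A / 4 := by
    intro p hp
    have h1 := Convex.norm_image_sub_le_of_norm_fderiv_le (𝕜 := ℂ) (f := g)
      (s := ball ((x0, 0) : ℂ × ℂ) (d / 4)) (C := 32 * M / d ^ 2) (x := (x0, 0)) (y := p)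
      (fun x hx => hg.differentiableAt (hop.mem_nhds (ball_subset_ball (by linarith) hx)))
      hf2 (convex_ball _ _) (mem_ball_self (by linarith)) (ball_subset_ball (by linarith) hp)
    rw [mem_ball, dist_eq_norm] at hp
    refine h1.trans ?_
    calc 32 * M / d ^ 2 * ‖p - (x0, 0)‖ ≤ 32 * M / d ^ 2 * s :=
          mul_le_mul_of_nonneg_left hp.le (by positivity)
      _ = A / 4 := by rw [hs]; field_simp; norm_num
  -- slices
  have hHd : ∀ p ∈ ball ((x0, 0) : ℂ × ℂ) d, HasFDerivAt H (fderiv ℂ H p) p := fun p hp =>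
    (hH.differentiableAt (hop.mem_nhds hp)).hasFDerivAt
  have hsl : ∀ x v : ℂ, ((x, v) : ℂ × ℂ) ∈ ball ((x0, 0) : ℂ × ℂ) d →
      HasDerivAt (fun x => H (x, v)) (g (x, v)) x := by
    intro x v hxv
    have h2 : HasDerivAt (fun x : ℂ => ((x, v) : ℂ × ℂ)) (1, 0) x :=
      (hasDerivAt_id x).prodMk (hasDerivAt_const x v)
    rw [hgdef]
    exact (hHd (x, v) hxv).comp_hasDerivAt x h2
  have hsub : ∀ x v : ℂ, x ∈ ball x0 s → v ∈ ball (0 : ℂ) s →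
      ((x, v) : ℂ × ℂ) ∈ ball ((x0, 0) : ℂ × ℂ) d := by
    intro x v hx hv
    exact ball_subset_ball (by linarith) ((BI2_mem x0 x v s).2 ⟨hx, hv⟩)
  have hdiff : ∀ v ∈ ball (0 : ℂ) s, ∀ x ∈ ball x0 s, ∀ y ∈ ball x0 s,
      3 / 4 * A * ‖x - y‖ ≤ ‖H (x, v) - H (y, v)‖ := by
    intro v hv x hx y hy
    have h1 := Convex.norm_image_sub_le_of_norm_hasDerivWithin_le
      (f := fun x => H (x, v) - g (x0, 0) * x) (f' := fun x => g (x, v) - g (x0, 0))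
      (s := ball x0 s) (C := A / 4) (x := y) (y := x)
      (fun z hz => ((hsl z v (hsub z v hz hv)).sub
        ((hasDerivAt_id z).const_mul (g (x0, 0)))).hasDerivWithinAt.congr_deriv (by rw [mul_one]))
      (fun z hz => hkey (z, v) ((BI2_mem x0 z v s).2 ⟨hz, hv⟩)) (convex_ball _ _) hy hx
    have h2 : A * ‖x - y‖ ≤ ‖H (x, v) - H (y, v)‖ +
        ‖(H (x, v) - g (x0, 0) * x) - (H (y, v) - g (x0, 0) * y)‖ := by
      have e1 : g (x0, 0) * (x - y) = (H (x, v) - H (y, v)) -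
          ((H (x, v) - g (x0, 0) * x) - (H (y, v) - g (x0, 0) * y)) := by ring
      calc A * ‖x - y‖ = ‖g (x0, 0) * (x - y)‖ := by rw [norm_mul, hA]
        _ ≤ _ := by rw [e1]; exact norm_sub_le _ _
    have h3 : ‖(H (x, v) - g (x0, 0) * x) - (H (y, v) - g (x0, 0) * y)‖ ≤ A / 4 * ‖x - y‖ := h1
    linarith
  -- sizes
  have hρ0 : 0 < ρ := by
    rw [hρ]
    have : 0 < ‖fderiv ℂ H (x0, 0) (1, 0)‖ := norm_pos_iff.2 hne
    positivity
  have hρA : ρ = A ^ 2 * d ^ 3 / (8192 * M ^ 2) := by rw [hρ, hA, hgdef]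
  have hρs : ρ * (2 * (4 * M / d)) ≤ 3 / 16 * A * s := by
    rw [hρA, hs]
    have e1 : A ^ 2 * d ^ 3 / (8192 * M ^ 2) * (2 * (4 * M / d)) = A ^ 2 * d ^ 2 / M * (1 / 1024) := by
      field_simp
      norm_num
    have e2 : 3 / 16 * A * (A * d ^ 2 / (128 * M)) = A ^ 2 * d ^ 2 / M * (3 / 2048) := by
      field_simp
      norm_num
    rw [e1, e2]
    exact mul_le_mul_of_nonneg_left (by norm_num) (by positivity)
  have hM1 : 1 ≤ 4 * M / d := by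
    rw [le_div_iff₀ hd]
    linarith
  have hρs' : ρ ≤ s := by
    have h1 : ρ * (4 * M / d) ≤ s * (4 * M / d) := by
      have h2 : A * s ≤ 4 * M / d * s := mul_le_mul_of_nonneg_right hA1 hs0.le
      have h3 : 0 ≤ ρ * (4 * M / d) := by positivity
      nlinarith
    exact le_of_mul_le_mul_right h1 (by linarith)
  have hv0 : ∀ v ∈ ball (0 : ℂ) ρ, ‖H (x0, v)‖ ≤ 4 * M / d * ‖v‖ := by
    intro v hv
    have hv' : v ∈ ball (0 : ℂ) (d / 2) := ball_subset_ball (by linarith) hv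
    have h1 := Convex.norm_image_sub_le_of_norm_fderiv_le (𝕜 := ℂ) (f := H)
      (s := ball ((x0, 0) : ℂ × ℂ) (d / 2)) (C := 4 * M / d) (x := (x0, 0)) (y := (x0, v))
      (fun x hx => hH.differentiableAt (hop.mem_nhds (ball_subset_ball (by linarith) hx)))
      hf1 (convex_ball _ _) hcen ((BI2_mem x0 x0 v (d / 2)).2 ⟨mem_ball_self (by linarith), hv'⟩)
    rw [h0, sub_zero] at h1
    refine h1.trans (le_of_eq ?_)
    congr 1
    simp [Prod.norm_def]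
  -- existence
  have hex : ∀ p : ℂ × ℂ, p ∈ ball (0 : ℂ) ρ ×ˢ ball (0 : ℂ) ρ → ∃ x ∈ closedBall x0 (s / 2),
      H (x, p.2) = p.1 := by
    rintro ⟨t, v⟩ ⟨ht, hv⟩
    have ht : t ∈ ball (0 : ℂ) ρ := ht
    have hv : v ∈ ball (0 : ℂ) ρ := hv
    have hvs : v ∈ ball (0 : ℂ) s := ball_subset_ball hρs' hv
    have hcl : ∀ x ∈ closedBall x0 (s / 2), x ∈ ball x0 s := fun x hx =>
      closedBall_subset_ball (by linarith) hx
    have h1 : DiffContOnCl ℂ (fun x => H (x, v)) (ball x0 (s / 2)) := by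
      refine DifferentiableOn.diffContOnCl ?_
      intro x hx
      rw [closure_ball x0 (by linarith)] at hx
      exact (hsl x v (hsub x v (hcl x hx) hvs)).differentiableAt.differentiableWithinAt
    have h2 : ∀ z ∈ sphere x0 (s / 2), 3 / 8 * A * s ≤ ‖(fun x => H (x, v)) z - (fun x => H (x, v)) x0‖ := by
      intro z hz
      have h3 := hdiff v hvs z (hcl z (sphere_subset_closedBall hz)) x0 (mem_ball_self hs0)
      rw [mem_sphere, dist_eq_norm] at hz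
      rw [hz] at h3
      have e1 : 3 / 4 * A * (s / 2) = 3 / 8 * A * s := by ring
      rw [e1] at h3
      exact h3
    have h3 : ∃ᶠ z in 𝓝 x0, (fun x => H (x, v)) z ≠ (fun x => H (x, v)) x0 := by
      have h4 : ∀ᶠ z in 𝓝[≠] x0, (fun x => H (x, v)) z ≠ (fun x => H (x, v)) x0 := by
        filter_upwards [self_mem_nhdsWithin, mem_nhdsWithin_of_mem_nhds
          (isOpen_ball.mem_nhds (mem_ball_self hs0 : x0 ∈ ball x0 s))] with z hz hzs heq
        have h5 := hdiff v hvs z hzs x0 (mem_ball_self hs0)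
        have heq' : H (z, v) = H (x0, v) := heq
        rw [heq', sub_self, norm_zero] at h5
        have h6 : 0 < ‖z - x0‖ := norm_pos_iff.2 (sub_ne_zero.2 hz)
        have h7 : 0 < 3 / 4 * A * ‖z - x0‖ := by positivity
        linarith
      exact (h4.frequently).filter_mono nhdsWithin_le_nhds
    have h4 := h1.ball_subset_image_closedBall (by linarith : (0 : ℝ) < s / 2) h2 h3
    have h5 : t ∈ ball ((fun x => H (x, v)) x0) (3 / 8 * A * s / 2) := by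
      rw [mem_ball_zero_iff] at ht
      rw [mem_ball, dist_eq_norm]
      have h6 := hv0 v hv
      rw [mem_ball_zero_iff] at hv
      have h7 : ‖t - H (x0, v)‖ ≤ ‖t‖ + ‖H (x0, v)‖ := norm_sub_le _ _
      have h8 : 4 * M / d * ‖v‖ ≤ 4 * M / d * ρ := mul_le_mul_of_nonneg_left hv.le (by linarith)
      have h9 : ρ ≤ 4 * M / d * ρ := by
        have := mul_le_mul_of_nonneg_right hM1 hρ0.le
        linarith
      have h10 : 3 / 8 * A * s / 2 = 3 / 16 * A * s := by ring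
      show ‖t - H (x0, v)‖ < 3 / 8 * A * s / 2
      rw [h10]
      have h11 : ρ * (2 * (4 * M / d)) = 4 * M / d * ρ + 4 * M / d * ρ := by ring
      linarith
    obtain ⟨x, hx, hx2⟩ := h4 h5
    exact ⟨x, hx, hx2⟩
  choose! Y hY1 hY2 using hex
  have hYs : ∀ p ∈ ball (0 : ℂ) ρ ×ˢ ball (0 : ℂ) ρ, Y p ∈ ball x0 s := fun p hp =>
    closedBall_subset_ball (by linarith) (hY1 p hp)
  have h00 : ((0, 0) : ℂ × ℂ) ∈ ball (0 : ℂ) ρ ×ˢ ball (0 : ℂ) ρ :=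
    ⟨mem_ball_self hρ0, mem_ball_self hρ0⟩
  have hopen2 : IsOpen (ball (0 : ℂ) ρ ×ˢ ball (0 : ℂ) ρ) := isOpen_ball.prod isOpen_ball
  refine ⟨Y, ?_, ?_, ?_⟩
  · intro p hp
    apply DifferentiableAt.differentiableWithinAt
    -- Lipschitz estimate
    have hlip : ∀ q ∈ ball (0 : ℂ) ρ ×ˢ ball (0 : ℂ) ρ,
        3 / 4 * A * ‖Y q - Y p‖ ≤ (1 + 4 * M / d) * ‖q - p‖ := by
      intro q hq
      have hq2 : q.2 ∈ ball (0 : ℂ) s := ball_subset_ball hρs' hq.2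
      have hp2 : p.2 ∈ ball (0 : ℂ) s := ball_subset_ball hρs' hp.2
      have h1 := hdiff q.2 hq2 (Y q) (hYs q hq) (Y p) (hYs p hp)
      rw [hY2 q hq] at h1
      have h2 := Convex.norm_image_sub_le_of_norm_fderiv_le (𝕜 := ℂ) (f := H)
        (s := ball ((x0, 0) : ℂ × ℂ) (d / 2)) (C := 4 * M / d) (x := (Y p, p.2)) (y := (Y p, q.2))
        (fun x hx => hH.differentiableAt (hop.mem_nhds (ball_subset_ball (by linarith) hx)))
        hf1 (convex_ball _ _)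
        ((BI2_mem x0 _ _ _).2 ⟨ball_subset_ball (by linarith) (hYs p hp), ball_subset_ball (by linarith) hp2⟩)
        ((BI2_mem x0 _ _ _).2 ⟨ball_subset_ball (by linarith) (hYs p hp), ball_subset_ball (by linarith) hq2⟩)
      rw [hY2 p hp] at h2
      have e1 : ‖((Y p, q.2) : ℂ × ℂ) - (Y p, p.2)‖ = ‖q.2 - p.2‖ := by
        simp [Prod.norm_def]
      rw [e1] at h2
      have h3 : ‖q.2 - p.2‖ ≤ ‖q - p‖ := norm_snd_le (q - p)
      have h4 : ‖q.1 - p.1‖ ≤ ‖q - p‖ := norm_fst_le (q - p)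
      have h5 : ‖q.1 - H (Y p, q.2)‖ ≤ ‖q.1 - p.1‖ + ‖H (Y p, q.2) - p.1‖ := by
        have e2 : q.1 - H (Y p, q.2) = (q.1 - p.1) - (H (Y p, q.2) - p.1) := by ring
        rw [e2]; exact norm_sub_le _ _
      have h6 : 4 * M / d * ‖q.2 - p.2‖ ≤ 4 * M / d * ‖q - p‖ :=
        mul_le_mul_of_nonneg_left h3 (by linarith)
      linarith
    have hcont : ContinuousAt Y p := by
      rw [Metric.continuousAt_iff]
      intro ε hε
      have hC : 0 < 1 + 4 * M / d := by linarith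
      obtain ⟨η, hη, hη2⟩ := Metric.isOpen_iff.1 hopen2 p hp
      refine ⟨min η (3 / 4 * A * ε / (1 + 4 * M / d)), lt_min hη (by positivity), ?_⟩
      intro q hq
      have hq1 : q ∈ ball p η := lt_of_lt_of_le hq (min_le_left _ _)
      have hq2 : dist q p < 3 / 4 * A * ε / (1 + 4 * M / d) := lt_of_lt_of_le hq (min_le_right _ _)
      have h1 := hlip q (hη2 hq1)
      rw [dist_eq_norm, lt_div_iff₀ hC] at hq2
      rw [dist_eq_norm]
      have h2 : 3 / 4 * A * ‖Y q - Y p‖ < 3 / 4 * A * ε := by linarith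
      exact lt_of_mul_lt_mul_left h2 (by positivity)
    have hpd : ((Y p, p.2) : ℂ × ℂ) ∈ ball ((x0, 0) : ℂ × ℂ) d :=
      hsub _ _ (hYs p hp) (ball_subset_ball hρs' hp.2)
    have hnz : fderiv ℂ H (Y p, p.2) (1, 0) ≠ 0 := by
      intro hz
      have h1 := hkey (Y p, p.2) ((BI2_mem x0 _ _ s).2 ⟨hYs p hp, ball_subset_ball hρs' hp.2⟩)
      have h2 : g (Y p, p.2) = 0 := by rw [hgdef]; exact hz
      rw [h2, zero_sub, norm_neg, ← hA] at h1
      linarith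
    obtain ⟨e, he⟩ := BI2_equiv (fderiv ℂ H (Y p, p.2)) hnz
    have hG : HasFDerivAt (fun q : ℂ × ℂ => (H q, q.2)) (e : ℂ × ℂ →L[ℂ] ℂ × ℂ) (Y p, p.2) := by
      rw [he]
      exact (hHd _ hpd).prodMk hasFDerivAt_snd
    have hcY : ContinuousAt (fun q : ℂ × ℂ => ((Y q, q.2) : ℂ × ℂ)) p :=
      hcont.prodMk continuous_snd.continuousAt
    have hinv : ∀ᶠ q in 𝓝 p, (fun q : ℂ × ℂ => ((H q, q.2) : ℂ × ℂ)) ((fun q : ℂ × ℂ => ((Y q, q.2) : ℂ × ℂ)) q) = q := by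
      filter_upwards [hopen2.mem_nhds hp] with q hq
      have h1 := hY2 q hq
      show ((H (Y q, q.2), q.2) : ℂ × ℂ) = q
      rw [h1]
    have hfin := HasFDerivAt.of_local_left_inverse (g := fun q : ℂ × ℂ => ((Y q, q.2) : ℂ × ℂ)) hcY hG hinv
    exact (hfin.differentiableAt.fst)
  · have h1 := hdiff 0 (mem_ball_self hs0) (Y (0, 0)) (hYs _ h00) x0 (mem_ball_self hs0)
    have h2 : H (Y (0, 0), 0) = 0 := hY2 (0, 0) h00
    rw [h2, h0, sub_zero, norm_zero] at h1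
    have h3 : ‖Y (0, 0) - x0‖ = 0 := by
      by_contra hcon
      have h4 : 0 < ‖Y (0, 0) - x0‖ := lt_of_le_of_ne (norm_nonneg _) (Ne.symm hcon)
      have h5 : 0 < 3 / 4 * A * ‖Y (0, 0) - x0‖ := by positivity
      linarith
    exact sub_eq_zero.1 (norm_eq_zero.1 h3)
  · intro t ht v hv
    have hp : ((t, v) : ℂ × ℂ) ∈ ball (0 : ℂ) ρ ×ˢ ball (0 : ℂ) ρ := ⟨ht, hv⟩
    exact ⟨hsub _ _ (hYs _ hp) (ball_subset_ball hρs' hv), hY2 (t, v) hp⟩

theorem BI2_lagrange (p q a b : ℂ) :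
    Complex.normSq (p * conj a + q * conj b) + Complex.normSq (q * a - p * b) =
      (Complex.normSq p + Complex.normSq q) * (Complex.normSq a + Complex.normSq b) := by
  simp only [Complex.normSq_apply, Complex.add_re, Complex.add_im, Complex.mul_re, Complex.mul_im,
    Complex.sub_re, Complex.sub_im, Complex.conj_re, Complex.conj_im]
  ring

theorem BI2_pos (p q : ℂ) (h : p ≠ 0 ∨ q ≠ 0) : 0 < Complex.normSq p + Complex.normSq q := by
  rcases h with h | h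
  · have := Complex.normSq_pos.2 h
    have := Complex.normSq_nonneg q
    linarith
  · have := Complex.normSq_pos.2 h
    have := Complex.normSq_nonneg p
    linarith

theorem BI2_bd (P Q : ℂ × ℂ → ℂ) (E : ℝ) (hN : ND P Q E) (p : ℂ × ℂ) (hp : p ∈ BI) :
    1 / Real.exp E ^ 2 ≤ Complex.normSq (P p) + Complex.normSq (Q p) ∧
      Complex.normSq (P p) + Complex.normSq (Q p) ≤ Real.exp E ^ 2 ∧ ‖P p‖ ≤ Real.exp E ∧
      ‖Q p‖ ≤ Real.exp E := by
  have hpos := BI2_pos _ _ (hN.ne p hp)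
  have h1 := abs_le.1 (hN.bd p hp)
  unfold Up sl at h1
  have h2 : Complex.normSq (P p) + Complex.normSq (Q p) ≤ Real.exp E ^ 2 := by
    rw [← Real.exp_nat_mul, ← Real.log_le_iff_le_exp hpos]
    push_cast
    linarith [h1.2]
  have h3 : 1 / Real.exp E ^ 2 ≤ Complex.normSq (P p) + Complex.normSq (Q p) := by
    rw [← Real.exp_nat_mul, one_div, ← Real.exp_neg, ← Real.le_log_iff_exp_le hpos]
    push_cast
    linarith [h1.1]
  refine ⟨h3, h2, ?_, ?_⟩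
  · apply le_of_sq_le_sq _ (Real.exp_pos E).le
    rw [← Complex.normSq_eq_norm_sq]
    linarith [Complex.normSq_nonneg (Q p)]
  · apply le_of_sq_le_sq _ (Real.exp_pos E).le
    rw [← Complex.normSq_eq_norm_sq]
    linarith [Complex.normSq_nonneg (P p)]

/-- Lipschitz estimate near `(x0, 0)` -/
theorem BI2_lip (P : ℂ × ℂ → ℂ) (k : ℝ) (hk : 0 < k) (hP : DifferentiableOn ℂ P BI)
    (hb : ∀ p ∈ BI, ‖P p‖ ≤ k) (x0 : ℂ) (hx : x0 ∈ ball (0 : ℂ) 1) :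
    (∀ p ∈ ball ((x0, 0) : ℂ × ℂ) ((1 - ‖x0‖) / 2), ‖P p - P (x0, 0)‖ ≤
      4 * k / (1 - ‖x0‖) * ‖p - (x0, 0)‖) ∧ ‖fderiv ℂ P (x0, 0)‖ ≤ 4 * k / (1 - ‖x0‖) := by
  have hx' : ‖x0‖ < 1 := mem_ball_zero_iff.1 hx
  have hop : IsOpen BI := isOpen_ball.prod isOpen_ball
  have hsub : ball ((x0, 0) : ℂ × ℂ) (1 - ‖x0‖) ⊆ BI := by
    rintro ⟨x, v⟩ hp
    obtain ⟨h1, h2⟩ := (BI2_mem x0 x v _).1 hp
    refine ⟨?_, ?_⟩
    · rw [mem_ball, dist_eq_norm] at h1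
      show x ∈ ball (0 : ℂ) 1
      rw [mem_ball_zero_iff]
      have : ‖x‖ ≤ ‖x - x0‖ + ‖x0‖ := by
        calc ‖x‖ = ‖(x - x0) + x0‖ := by rw [sub_add_cancel]
          _ ≤ _ := norm_add_le _ _
      linarith
    · show v ∈ ball (0 : ℂ) 1
      exact ball_subset_ball (by linarith [norm_nonneg x0]) h2
  have hf1 : ∀ p ∈ ball ((x0, 0) : ℂ × ℂ) ((1 - ‖x0‖) / 2), ‖fderiv ℂ P p‖ ≤ 4 * k / (1 - ‖x0‖) := by
    intro p hp
    rw [mem_ball] at hp
    have hs : ball p ((1 - ‖x0‖) / 2) ⊆ ball ((x0, 0) : ℂ × ℂ) (1 - ‖x0‖) :=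
      ball_subset_ball' (by linarith)
    have h1 := OSG_bound (x := p) (R := (1 - ‖x0‖) / 2) (M := k) (by linarith)
      (hP.mono (hs.trans hsub)) (fun y hy => hb y (hsub (hs hy)))
    refine h1.trans (le_of_eq ?_)
    have : 1 - ‖x0‖ ≠ 0 := by linarith
    field_simp
    norm_num
  refine ⟨?_, hf1 _ (mem_ball_self (by linarith))⟩
  intro p hp
  exact Convex.norm_image_sub_le_of_norm_fderiv_le (𝕜 := ℂ) (f := P)
    (fun x hx => hP.differentiableAt (hop.mem_nhds (hsub (ball_subset_ball (by linarith) hx))))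
    hf1 (convex_ball _ _) (mem_ball_self (by linarith)) hp

theorem BI2 (hBSL : BSL_stmt) (hBRA : BRA_stmt) : BI2_stmt := by
  intro P Q E hN x0 hx0 hW
  obtain ⟨hAdm, -, hw1, -⟩ := hBSL P Q E hN 0 (mem_ball_self one_pos)
  have hx0' : ‖x0‖ < 1 := mem_ball_zero_iff.1 hx0
  have h0b : (0 : ℂ) ∈ ball (0 : ℂ) 1 := mem_ball_self one_pos
  have hc : ((x0, 0) : ℂ × ℂ) ∈ BI := ⟨hx0, h0b⟩
  have hop : IsOpen BI := isOpen_ball.prod isOpen_ball
  obtain ⟨k, hk⟩ : ∃ k, k = Real.exp E := ⟨_, rfl⟩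
  have hk2 : 2 ≤ k := by
    have := Real.add_one_le_exp E
    have := hN.hE
    rw [hk]; linarith
  have hk0 : 0 < k := by linarith
  obtain ⟨δ, hδ⟩ : ∃ δ, δ = 1 - ‖x0‖ := ⟨_, rfl⟩
  have hδ0 : 0 < δ := by rw [hδ]; linarith
  have hδ1 : δ ≤ 1 := by rw [hδ]; linarith [norm_nonneg x0]
  have hbd := BI2_bd P Q E hN
  rw [← hk] at hbd
  obtain ⟨hPs, hPd⟩ := BI2_lip P k hk0 hN.dP (fun p hp => (hbd p hp).2.2.1) x0 hx0
  obtain ⟨hQs, hQd⟩ := BI2_lip Q k hk0 hN.dQ (fun p hp => (hbd p hp).2.2.2) x0 hx0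
  rw [← hδ] at hPs hPd hQs hQd
  obtain ⟨hA1, hA2, hPz, hQz⟩ := hbd (x0, 0) hc
  have hApos := BI2_pos _ _ (hN.ne (x0, 0) hc)
  obtain ⟨a, ha⟩ : ∃ a, a = P (x0, 0) := ⟨_, rfl⟩
  obtain ⟨b, hb⟩ : ∃ b, b = Q (x0, 0) := ⟨_, rfl⟩
  rw [← ha] at hPs hPz
  rw [← hb] at hQs hQz
  rw [← ha, ← hb] at hA1 hA2 hApos
  obtain ⟨A, hAdef⟩ : ∃ A, A = Complex.normSq a + Complex.normSq b := ⟨_, rfl⟩
  rw [← hAdef] at hA1 hA2 hApos
  -- the small bidisc
  obtain ⟨δ₁, hδ₁⟩ : ∃ δ₁, δ₁ = δ / (32 * k ^ 4) := ⟨_, rfl⟩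
  have hδ₁0 : 0 < δ₁ := by rw [hδ₁]; positivity
  have hδ₁δ : δ₁ ≤ δ / 2 := by
    rw [hδ₁, div_le_div_iff₀ (by positivity) (by norm_num)]
    have : 1 ≤ k ^ 4 := one_le_pow₀ (by linarith)
    have h2 : δ * 2 ≤ δ * (32 * k ^ 4) := mul_le_mul_of_nonneg_left (by linarith) hδ0.le
    linarith
  have hsub : ∀ p ∈ ball ((x0, 0) : ℂ × ℂ) δ₁, p ∈ BI := by
    rintro ⟨x, v⟩ hp
    obtain ⟨h1, h2⟩ := (BI2_mem x0 x v _).1 hp
    refine ⟨?_, ?_⟩
    · rw [mem_ball, dist_eq_norm] at h1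
      show x ∈ ball (0 : ℂ) 1
      rw [mem_ball_zero_iff]
      have : ‖x‖ ≤ ‖x - x0‖ + ‖x0‖ := by
        calc ‖x‖ = ‖(x - x0) + x0‖ := by rw [sub_add_cancel]
          _ ≤ _ := norm_add_le _ _
      linarith
    · show v ∈ ball (0 : ℂ) 1
      exact ball_subset_ball (by linarith) h2
  have hden : ∀ p ∈ ball ((x0, 0) : ℂ × ℂ) δ₁, A / 2 ≤ ‖P p * conj a + Q p * conj b‖ := by
    intro p hp
    have hpδ : p ∈ ball ((x0, 0) : ℂ × ℂ) (δ / 2) := ball_subset_ball hδ₁δ hp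
    rw [mem_ball, dist_eq_norm] at hp
    have hsmall : 4 * k / δ * ‖p - (x0, 0)‖ ≤ 1 / (8 * k ^ 3) := by
      calc 4 * k / δ * ‖p - (x0, 0)‖ ≤ 4 * k / δ * δ₁ := mul_le_mul_of_nonneg_left hp.le (by positivity)
        _ = 1 / (8 * k ^ 3) := by rw [hδ₁]; field_simp; norm_num
    have h1 : ‖P p - a‖ ≤ 1 / (8 * k ^ 3) := (hPs p hpδ).trans hsmall
    have h2 : ‖Q p - b‖ ≤ 1 / (8 * k ^ 3) := (hQs p hpδ).trans hsmall
    have e1 : P p * conj a + Q p * conj b = (A : ℂ) + ((P p - a) * conj a + (Q p - b) * conj b) := by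
      rw [hAdef, Complex.ofReal_add, ← Complex.mul_conj, ← Complex.mul_conj]
      ring
    have h3 : ‖(P p - a) * conj a + (Q p - b) * conj b‖ ≤ 1 / 4 * (1 / k ^ 2) := by
      refine (norm_add_le _ _).trans ?_
      rw [norm_mul, norm_mul, Complex.norm_conj, Complex.norm_conj]
      have g1 : ‖P p - a‖ * ‖a‖ ≤ 1 / (8 * k ^ 3) * k :=
        mul_le_mul h1 hPz (norm_nonneg _) (by positivity)
      have g2 : ‖Q p - b‖ * ‖b‖ ≤ 1 / (8 * k ^ 3) * k :=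
        mul_le_mul h2 hQz (norm_nonneg _) (by positivity)
      have g3 : 1 / (8 * k ^ 3) * k + 1 / (8 * k ^ 3) * k = 1 / 4 * (1 / k ^ 2) := by
        field_simp
        norm_num
      linarith
    have h4 : A ≤ ‖P p * conj a + Q p * conj b‖ + ‖(P p - a) * conj a + (Q p - b) * conj b‖ := by
      have g1 : (A : ℂ) = (P p * conj a + Q p * conj b) - ((P p - a) * conj a + (Q p - b) * conj b) := by
        rw [e1]; ring
      have g2 : A = ‖(A : ℂ)‖ := by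
        rw [Complex.norm_real, Real.norm_eq_abs, abs_of_pos hApos]
      calc A = ‖(A : ℂ)‖ := g2
        _ ≤ _ := by rw [g1]; exact norm_sub_le _ _
    linarith
  have hne : ∀ p ∈ ball ((x0, 0) : ℂ × ℂ) δ₁, P p * conj a + Q p * conj b ≠ 0 := by
    intro p hp h0
    have := hden p hp
    rw [h0, norm_zero] at this
    linarith
  obtain ⟨H, hHdef⟩ : ∃ H : ℂ × ℂ → ℂ, H = fun p => (Q p * a - P p * b) / (P p * conj a + Q p * conj b) :=
    ⟨_, rfl⟩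
  have hHp : ∀ p, H p = (Q p * a - P p * b) / (P p * conj a + Q p * conj b) := fun p => by rw [hHdef]
  have hH0 : H (x0, 0) = 0 := by
    rw [hHp, ← ha, ← hb, show b * a - a * b = 0 by ring, zero_div]
  have hHd : DifferentiableOn ℂ H (ball ((x0, 0) : ℂ × ℂ) δ₁) := by
    have hs : ball ((x0, 0) : ℂ × ℂ) δ₁ ⊆ BI := hsub
    have h1 : DifferentiableOn ℂ (fun p => Q p * a - P p * b) (ball ((x0, 0) : ℂ × ℂ) δ₁) :=
      ((hN.dQ.mono hs).mul_const a).sub ((hN.dP.mono hs).mul_const b)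
    have h2 : DifferentiableOn ℂ (fun p => P p * conj a + Q p * conj b) (ball ((x0, 0) : ℂ × ℂ) δ₁) :=
      ((hN.dP.mono hs).mul_const (conj a)).add ((hN.dQ.mono hs).mul_const (conj b))
    have h3 : DifferentiableOn ℂ (fun p => (P p * conj a + Q p * conj b)⁻¹)
        (ball ((x0, 0) : ℂ × ℂ) δ₁) := h2.inv hne
    rw [hHdef]
    simp only [div_eq_mul_inv]
    exact h1.mul h3
  have hHb : ∀ p ∈ ball ((x0, 0) : ℂ × ℂ) δ₁, ‖H p‖ ≤ 2 * k ^ 2 := by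
    intro p hp
    have h1 := BI2_lagrange (P p) (Q p) a b
    have h2 := hden p hp
    have h3 := (hbd p (hsub p hp)).2.1
    have hn : ‖Q p * a - P p * b‖ ^ 2 ≤ k ^ 2 * A := by
      rw [← Complex.normSq_eq_norm_sq]
      calc Complex.normSq (Q p * a - P p * b) ≤
            (Complex.normSq (P p) + Complex.normSq (Q p)) * A := by
              rw [hAdef]
              linarith [Complex.normSq_nonneg (P p * conj a + Q p * conj b)]
        _ ≤ k ^ 2 * A := mul_le_mul_of_nonneg_right h3 hApos.le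
    have hn2 : ‖Q p * a - P p * b‖ ≤ k ^ 2 * A := by
      apply le_of_sq_le_sq _ (by positivity)
      refine hn.trans ?_
      have h4 : 1 ≤ k ^ 2 * A := by
        have := mul_le_mul_of_nonneg_left hA1 (by positivity : (0 : ℝ) ≤ k ^ 2)
        have e : k ^ 2 * (1 / k ^ 2) = 1 := by field_simp
        linarith
      calc k ^ 2 * A = (k ^ 2 * A) * 1 := by ring
        _ ≤ (k ^ 2 * A) * (k ^ 2 * A) := mul_le_mul_of_nonneg_left h4 (by positivity)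
        _ = (k ^ 2 * A) ^ 2 := by ring
    rw [hHp, norm_div, div_le_iff₀ (by linarith)]
    calc ‖Q p * a - P p * b‖ ≤ k ^ 2 * A := hn2
      _ = 2 * k ^ 2 * (A / 2) := by ring
      _ ≤ _ := mul_le_mul_of_nonneg_left h2 (by positivity)
  -- the derivative
  have hcen : ((x0, 0) : ℂ × ℂ) ∈ ball ((x0, 0) : ℂ × ℂ) δ₁ := mem_ball_self hδ₁0
  have hder : HasDerivAt (fun x => H (x, 0)) (fderiv ℂ H (x0, 0) (1, 0)) x0 := by
    have h1 : HasFDerivAt H (fderiv ℂ H (x0, 0)) (x0, 0) :=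
      (hHd.differentiableAt (isOpen_ball.mem_nhds hcen)).hasFDerivAt
    have h2 : HasDerivAt (fun x : ℂ => ((x, 0) : ℂ × ℂ)) (1, 0) x0 :=
      (hasDerivAt_id x0).prodMk (hasDerivAt_const x0 0)
    exact h1.comp_hasDerivAt x0 h2
  have hHz : (fun x => H (x, 0)) = Hz (sl P 0) (sl Q 0) x0 := by
    funext x
    rw [hHp, ha, hb]
    rfl
  have hzz : Hz (sl P 0) (sl Q 0) x0 x0 = 0 := by
    have h1 : H (x0, 0) = Hz (sl P 0) (sl Q 0) x0 x0 := congrFun hHz x0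
    rw [← h1, hH0]
  have hbr : sl P 0 x0 * conj (sl P 0 x0) + sl Q 0 x0 * conj (sl Q 0 x0) ≠ 0 := by
    have h1 := hne (x0, 0) hcen
    rw [ha, hb] at h1
    exact h1
  have hdz := ((hBRA (sl P 0) (sl Q 0) hAdm x0 hx0).1 x0 hx0 hbr).2
  rw [hzz, map_zero, ← hHz, hder.deriv] at hdz
  have hdz' : ‖fderiv ℂ H (x0, 0) (1, 0)‖ ^ 2 = ‖Wr (sl P 0) (sl Q 0) x0‖ ^ 2 / A ^ 2 := by
    rw [← Complex.normSq_eq_norm_sq, hdz]
    unfold sph
    have e1 : Complex.normSq (sl P 0 x0) + Complex.normSq (sl Q 0 x0) = A := by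
      rw [hAdef, ha, hb]; rfl
    rw [Complex.normSq_eq_norm_sq (Wr (sl P 0) (sl Q 0) x0), e1]
    ring
  have hWpos : 0 < ‖Wr (sl P 0) (sl Q 0) x0‖ := norm_pos_iff.2 hW
  have hdne : fderiv ℂ H (x0, 0) (1, 0) ≠ 0 := by
    intro h0
    rw [h0, norm_zero] at hdz'
    have : 0 < ‖Wr (sl P 0) (sl Q 0) x0‖ ^ 2 / A ^ 2 := by positivity
    rw [← hdz'] at this
    norm_num at this
  obtain ⟨Y, hY1, hY2, hY3⟩ := BI2_imp H x0 δ₁ (2 * k ^ 2) _ hδ₁0 (by linarith)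
    (by nlinarith) hHd hHb hH0 hdne rfl
  -- sizes
  have hexp : Real.exp (-(100 * E)) = 1 / k ^ 100 := by
    rw [hk, ← Real.exp_nat_mul, one_div, ← Real.exp_neg]
    norm_num
  have hle : 1 / k ^ 100 * δ ^ 4 * ‖Wr (sl P 0) (sl Q 0) x0‖ ^ 2 ≤
      ‖fderiv ℂ H (x0, 0) (1, 0)‖ ^ 2 * δ₁ ^ 3 / (8192 * (2 * k ^ 2) ^ 2) := by
    rw [hdz', hδ₁]
    have e1 : ‖Wr (sl P 0) (sl Q 0) x0‖ ^ 2 / A ^ 2 * (δ / (32 * k ^ 4)) ^ 3 / (8192 * (2 * k ^ 2) ^ 2) =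
        (1 / (1073741824 * k ^ 16 * A ^ 2)) * δ ^ 3 * ‖Wr (sl P 0) (sl Q 0) x0‖ ^ 2 := by
      field_simp
      norm_num
    rw [e1]
    refine mul_le_mul_of_nonneg_right (mul_le_mul ?_ ?_ (by positivity) (by positivity)) (by positivity)
    · apply one_div_le_one_div_of_le (by positivity)
      have h1 : A ^ 2 ≤ (k ^ 2) ^ 2 := pow_le_pow_left₀ hApos.le hA2 2
      have h2 : (1073741824 : ℝ) ≤ k ^ 30 := by
        calc (1073741824 : ℝ) = 2 ^ 30 := by norm_num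
          _ ≤ k ^ 30 := pow_le_pow_left₀ (by norm_num) hk2 30
      have h3 : (1 : ℝ) ≤ k ^ 50 := one_le_pow₀ (by linarith)
      calc 1073741824 * k ^ 16 * A ^ 2 ≤ k ^ 30 * k ^ 16 * (k ^ 2) ^ 2 := by
            apply mul_le_mul _ h1 (by positivity) (by positivity)
            exact mul_le_mul_of_nonneg_right h2 (by positivity)
        _ = k ^ 50 * 1 := by ring
        _ ≤ k ^ 50 * k ^ 50 := mul_le_mul_of_nonneg_left h3 (by positivity)
        _ = k ^ 100 := by ring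
    · calc δ ^ 4 = δ ^ 3 * δ := by ring
        _ ≤ δ ^ 3 * 1 := mul_le_mul_of_nonneg_left hδ1 (by positivity)
        _ = δ ^ 3 := by ring
  have hle1 : 1 / k ^ 100 * δ ^ 4 * ‖Wr (sl P 0) (sl Q 0) x0‖ ^ 2 ≤ 1 := by
    have hw := (hw1 x0 hx0).1
    have h1 : ‖Wr (sl P 0) (sl Q 0) x0‖ ≤ 8 * k ^ 2 / δ := by
      rw [← hw]
      unfold w1
      refine (norm_sub_le _ _).trans ?_
      rw [norm_mul, norm_mul, ← ha, ← hb]
      have hn1 : ‖((1 : ℂ), (0 : ℂ))‖ = 1 := by simp [Prod.norm_def]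
      have g0 : ‖fderiv ℂ P (x0, 0) (1, 0)‖ ≤ 4 * k / δ := by
        have h1 := (fderiv ℂ P (x0, 0)).le_opNorm (1, 0)
        rw [hn1, mul_one] at h1
        exact h1.trans hPd
      have g0' : ‖fderiv ℂ Q (x0, 0) (1, 0)‖ ≤ 4 * k / δ := by
        have h1 := (fderiv ℂ Q (x0, 0)).le_opNorm (1, 0)
        rw [hn1, mul_one] at h1
        exact h1.trans hQd
      have g1 : ‖b‖ * ‖fderiv ℂ P (x0, 0) (1, 0)‖ ≤ k * (4 * k / δ) :=
        mul_le_mul hQz g0 (norm_nonneg _) hk0.le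
      have g2 : ‖a‖ * ‖fderiv ℂ Q (x0, 0) (1, 0)‖ ≤ k * (4 * k / δ) :=
        mul_le_mul hPz g0' (norm_nonneg _) hk0.le
      have g3 : k * (4 * k / δ) + k * (4 * k / δ) = 8 * k ^ 2 / δ := by ring
      linarith
    have h2 : ‖Wr (sl P 0) (sl Q 0) x0‖ ^ 2 ≤ (8 * k ^ 2 / δ) ^ 2 := pow_le_pow_left₀ (norm_nonneg _) h1 2
    calc 1 / k ^ 100 * δ ^ 4 * ‖Wr (sl P 0) (sl Q 0) x0‖ ^ 2 ≤ 1 / k ^ 100 * δ ^ 4 * (8 * k ^ 2 / δ) ^ 2 :=
          mul_le_mul_of_nonneg_left h2 (by positivity)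
      _ = 64 * δ ^ 2 / k ^ 96 := by field_simp; norm_num
      _ ≤ 1 := by
          rw [div_le_one (by positivity)]
          have h3 : δ ^ 2 ≤ 1 := pow_le_one₀ hδ0.le hδ1
          calc 64 * δ ^ 2 ≤ 64 * 1 := by linarith
            _ ≤ 2 ^ 96 := by norm_num
            _ ≤ k ^ 96 := pow_le_pow_left₀ (by norm_num) hk2 96
  refine ⟨_, Y, rfl, ?_, ?_, ?_, hY2, ?_⟩
  · rw [hexp, ← hδ]
    positivity
  · rw [hexp, ← hδ]
    exact hle1
  · rw [hexp, ← hδ]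
    exact hY1.mono (prod_mono (ball_subset_ball hle) (ball_subset_ball hle))
  · rw [hexp, ← hδ]
    intro t ht v hv
    obtain ⟨h1, h2⟩ := hY3 t (ball_subset_ball hle ht) v (ball_subset_ball hle hv)
    refine ⟨(hsub _ h1).1, ?_⟩
    have h4 := hne _ h1
    rw [hHp, div_eq_iff h4] at h2
    rw [← ha, ← hb]
    linear_combination -h2

end Pool.Agent.P2B
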