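import Pool.Agent.helper15.P2.SpecD
import Pool.Agent.helper18.P2.BUQ

set_option autoImplicit false

/-!
# Project P2 (MP_063734_an), row BIC: covering by families of disjoint bands
-/

open scoped ContDiff Topology ComplexConjugate ENNReal
open MeasureTheory Filter Set Metric

namespace Pool.Agent.P2B

open Pool.Agent.P2 Pool.Agent.P2I

/-- two solutions of the equation of a band which agree at one point agree everywhere -/
theorem BIC_uni (P Q : ℂ × ℂ → ℂ) (E : ℝ) (hND : ND P Q E) (p q : ℂ) (hpq : p ≠ 0 ∨ q ≠ 0)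
    (κ r : ℝ) (hr1 : r ≤ 1) (Y Y' : ℂ × ℂ → ℂ)
    (hY : DifferentiableOn ℂ Y (ball (0 : ℂ) κ ×ˢ ball (0 : ℂ) r))
    (hY' : DifferentiableOn ℂ Y' (ball (0 : ℂ) κ ×ˢ ball (0 : ℂ) r))
    (hY2 : ∀ t ∈ ball (0 : ℂ) κ, ∀ v ∈ ball (0 : ℂ) r, Y (t, v) ∈ ball (0 : ℂ) 1 ∧
      P (Y (t, v), v) * (q + t * conj p) = Q (Y (t, v), v) * (p - t * conj q))
    (hY2' : ∀ t ∈ ball (0 : ℂ) κ, ∀ v ∈ ball (0 : ℂ) r, Y' (t, v) ∈ ball (0 : ℂ) 1 ∧
      P (Y' (t, v), v) * (q + t * conj p) = Q (Y' (t, v), v) * (p - t * conj q))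
    (t1 v1 : ℂ) (ht1 : t1 ∈ ball (0 : ℂ) κ) (hv1 : v1 ∈ ball (0 : ℂ) r)
    (hW : Wr (sl P v1) (sl Q v1) (Y (t1, v1)) ≠ 0) (heq : Y (t1, v1) = Y' (t1, v1))
    (t2 v2 : ℂ) (ht2 : t2 ∈ ball (0 : ℂ) κ) (hv2 : v2 ∈ ball (0 : ℂ) r) :
    Y (t2, v2) = Y' (t2, v2) := by
  obtain ⟨z, hz⟩ : ∃ z, z = Y (t1, v1) := ⟨_, rfl⟩
  have hz1 : z ∈ ball (0 : ℂ) 1 := by rw [hz]; exact (hY2 t1 ht1 v1 hv1).1
  have hv1' : v1 ∈ ball (0 : ℂ) 1 := ball_subset_ball hr1 hv1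
  have hopen : IsOpen BI := isOpen_ball.prod isOpen_ball
  obtain ⟨l, hl⟩ : ∃ l : ℂ → ℂ × ℂ, l = fun ζ => (t1 + ζ * (t2 - t1), v1 + ζ * (v2 - v1)) := ⟨_, rfl⟩
  have hlp : ∀ ζ, l ζ = (t1 + ζ * (t2 - t1), v1 + ζ * (v2 - v1)) := fun ζ => by rw [hl]
  have hld : ∀ ζ, DifferentiableAt ℂ l ζ := by
    intro ζ
    rw [hl]
    exact ((differentiableAt_id.mul_const (t2 - t1)).const_add t1).prodMk
      ((differentiableAt_id.mul_const (v2 - v1)).const_add v1)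
  have hlc : Continuous l := by
    rw [continuous_iff_continuousAt]
    exact fun ζ => (hld ζ).continuousAt
  obtain ⟨U, hU⟩ : ∃ U : Set ℂ, U = l ⁻¹' (ball (0 : ℂ) κ ×ˢ ball (0 : ℂ) r) := ⟨_, rfl⟩
  have hUo : IsOpen U := by
    rw [hU]; exact (isOpen_ball.prod isOpen_ball).preimage hlc
  have hUm : ∀ ζ ∈ U, t1 + ζ * (t2 - t1) ∈ ball (0 : ℂ) κ ∧ v1 + ζ * (v2 - v1) ∈ ball (0 : ℂ) r := by
    intro ζ hζ
    rw [hU, mem_preimage, hlp] at hζ
    exact hζ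
  have hUc : Convex ℝ U := by
    intro a ha b hb α β hα hβ hαβ
    have h1 := hUm a ha
    have h2 := hUm b hb
    rw [hU, mem_preimage, hlp]
    have hαβ' : (α : ℂ) + β = 1 := by exact_mod_cast hαβ
    refine ⟨?_, ?_⟩
    · have h3 := (convex_ball (0 : ℂ) κ) h1.1 h2.1 hα hβ hαβ
      have e : t1 + (α • a + β • b) * (t2 - t1) =
          α • (t1 + a * (t2 - t1)) + β • (t1 + b * (t2 - t1)) := by
        simp only [Complex.real_smul]
        linear_combination (-t1) * hαβ'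
      show t1 + (α • a + β • b) * (t2 - t1) ∈ ball (0 : ℂ) κ
      rw [e]; exact h3
    · have h3 := (convex_ball (0 : ℂ) r) h1.2 h2.2 hα hβ hαβ
      have e : v1 + (α • a + β • b) * (v2 - v1) =
          α • (v1 + a * (v2 - v1)) + β • (v1 + b * (v2 - v1)) := by
        simp only [Complex.real_smul]
        linear_combination (-v1) * hαβ'
      show v1 + (α • a + β • b) * (v2 - v1) ∈ ball (0 : ℂ) r
      rw [e]; exact h3
  have h0U : (0 : ℂ) ∈ U := by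
    rw [hU, mem_preimage, hlp]
    rw [zero_mul, zero_mul, add_zero, add_zero]
    exact ⟨ht1, hv1⟩
  have h1U : (1 : ℂ) ∈ U := by
    rw [hU, mem_preimage, hlp]
    rw [one_mul, one_mul, add_sub_cancel, add_sub_cancel]
    exact ⟨ht2, hv2⟩
  have hφd : DifferentiableOn ℂ (fun ζ => Y (l ζ)) U := by
    intro ζ hζ
    have h1 : DifferentiableAt ℂ Y (l ζ) := by
      refine hY.differentiableAt ((isOpen_ball.prod isOpen_ball).mem_nhds ?_)
      rw [hU] at hζ; exact hζ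
    exact (h1.comp ζ (hld ζ)).differentiableWithinAt
  have hψd : DifferentiableOn ℂ (fun ζ => Y' (l ζ)) U := by
    intro ζ hζ
    have h1 : DifferentiableAt ℂ Y' (l ζ) := by
      refine hY'.differentiableAt ((isOpen_ball.prod isOpen_ball).mem_nhds ?_)
      rw [hU] at hζ; exact hζ
    exact (h1.comp ζ (hld ζ)).differentiableWithinAt
  -- the equation
  obtain ⟨O, hO⟩ : ∃ O : Set (ℂ × ℂ), O = (fun p : ℂ × ℂ => (p.1, v1 + p.2 * (v2 - v1))) ⁻¹' BI := ⟨_, rfl⟩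
  have hsm : ∀ p : ℂ × ℂ, DifferentiableAt ℂ (fun p : ℂ × ℂ => (p.1, v1 + p.2 * (v2 - v1))) p := fun p =>
    differentiableAt_fst.prodMk ((differentiableAt_snd.mul_const (v2 - v1)).const_add v1)
  have hOo : IsOpen O := by
    rw [hO]
    refine hopen.preimage ?_
    rw [continuous_iff_continuousAt]
    exact fun p => (hsm p).continuousAt
  obtain ⟨F, hF⟩ : ∃ F : ℂ × ℂ → ℂ, F = fun s => P (s.1, v1 + s.2 * (v2 - v1)) *
      (q + (t1 + s.2 * (t2 - t1)) * conj p) - Q (s.1, v1 + s.2 * (v2 - v1)) * (p - (t1 + s.2 * (t2 - t1)) * conj q) :=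
    ⟨_, rfl⟩
  have hFd : DifferentiableOn ℂ F O := by
    intro s hs
    rw [hO] at hs
    have q1 : DifferentiableAt ℂ P (s.1, v1 + s.2 * (v2 - v1)) :=
      hND.dP.differentiableAt (hopen.mem_nhds hs)
    have q2 : DifferentiableAt ℂ Q (s.1, v1 + s.2 * (v2 - v1)) :=
      hND.dQ.differentiableAt (hopen.mem_nhds hs)
    have q3 : DifferentiableAt ℂ (fun s : ℂ × ℂ => P (s.1, v1 + s.2 * (v2 - v1))) s := q1.comp s (hsm s)
    have q4 : DifferentiableAt ℂ (fun s : ℂ × ℂ => Q (s.1, v1 + s.2 * (v2 - v1))) s := q2.comp s (hsm s)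
    have q5 : DifferentiableAt ℂ (fun s : ℂ × ℂ => q + (t1 + s.2 * (t2 - t1)) * conj p) s :=
      (((differentiableAt_snd.mul_const _).const_add _).mul_const _).const_add _
    have q6 : DifferentiableAt ℂ (fun s : ℂ × ℂ => p - (t1 + s.2 * (t2 - t1)) * conj q) s :=
      (((differentiableAt_snd.mul_const _).const_add _).mul_const _).const_sub _
    rw [hF]
    exact ((q3.mul q5).sub (q4.mul q6)).differentiableWithinAt
  have hzO : (z, (0 : ℂ)) ∈ O := by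
    rw [hO]
    show (z, v1 + 0 * (v2 - v1)) ∈ BI
    rw [zero_mul, add_zero]
    exact ⟨hz1, hv1'⟩
  have hFx : fderiv ℂ F (z, 0) (1, 0) ≠ 0 := by
    have g1 : HasFDerivAt F (fderiv ℂ F (z, 0)) (z, 0) :=
      (hFd.differentiableAt (hOo.mem_nhds hzO)).hasFDerivAt
    have g2 : HasDerivAt (fun x : ℂ => F (x, 0)) (fderiv ℂ F (z, 0) (1, 0)) z := by
      have g3 : HasDerivAt (fun x : ℂ => (x, (0 : ℂ))) ((1 : ℂ), (0 : ℂ)) z :=
        (hasDerivAt_id z).prodMk (hasDerivAt_const z (0 : ℂ))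
      exact g1.comp_hasDerivAt z g3
    have hslP : DifferentiableAt ℂ (sl P v1) z := by
      have h1 : DifferentiableAt ℂ P (z, v1) := hND.dP.differentiableAt (hopen.mem_nhds ⟨hz1, hv1'⟩)
      exact h1.comp z (differentiableAt_id.prodMk (differentiableAt_const v1))
    have hslQ : DifferentiableAt ℂ (sl Q v1) z := by
      have h1 : DifferentiableAt ℂ Q (z, v1) := hND.dQ.differentiableAt (hopen.mem_nhds ⟨hz1, hv1'⟩)
      exact h1.comp z (differentiableAt_id.prodMk (differentiableAt_const v1))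
    have g4 : HasDerivAt (fun x : ℂ => F (x, 0)) (deriv (sl P v1) z * (q + t1 * conj p) -
        deriv (sl Q v1) z * (p - t1 * conj q)) z := by
      have g5 := hslP.hasDerivAt.mul_const (q + t1 * conj p)
      have g6 := hslQ.hasDerivAt.mul_const (p - t1 * conj q)
      have g7 : (fun x : ℂ => F (x, 0)) = fun x => sl P v1 x * (q + t1 * conj p) -
          sl Q v1 x * (p - t1 * conj q) := by
        funext x
        rw [hF]
        simp [sl]
      rw [g7]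
      exact g5.sub g6
    rw [g2.unique g4]
    obtain ⟨μ, hμ0, hP0, hQ0⟩ := BUQ_mu p q t1 (P (z, v1)) (Q (z, v1)) hpq (hND.ne (z, v1) ⟨hz1, hv1'⟩)
      (by rw [hz]; exact (hY2 t1 ht1 v1 hv1).2)
    intro h
    apply hW
    rw [← hz]
    unfold Wr
    have e1 : sl P v1 z = P (z, v1) := rfl
    have e2 : sl Q v1 z = Q (z, v1) := rfl
    rw [e1, e2, hP0, hQ0]
    linear_combination μ * h
  have hφ0 : (fun ζ => Y (l ζ)) 0 = z := by
    show Y (l 0) = z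
    rw [hlp, zero_mul, zero_mul, add_zero, add_zero, hz]
  have hψ0 : (fun ζ => Y' (l ζ)) 0 = z := by
    show Y' (l 0) = z
    rw [hlp, zero_mul, zero_mul, add_zero, add_zero, ← heq, hz]
  have hloc := BUQ_uni F O hOo hFd z hzO hFx (fun ζ => Y (l ζ)) (fun ζ => Y' (l ζ))
    ((hφd.differentiableAt (hUo.mem_nhds h0U)).continuousAt)
    ((hψd.differentiableAt (hUo.mem_nhds h0U)).continuousAt) hφ0 hψ0 (by
      filter_upwards [hUo.mem_nhds h0U] with ζ hζ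
      obtain ⟨m1, m2⟩ := hUm ζ hζ
      rw [hF]
      simp only [hlp]
      constructor
      · exact sub_eq_zero.mpr (hY2 _ m1 _ m2).2
      · exact sub_eq_zero.mpr (hY2' _ m1 _ m2).2)
  have han1 : AnalyticOnNhd ℂ (fun ζ => Y (l ζ)) U := hφd.analyticOnNhd hUo
  have han2 : AnalyticOnNhd ℂ (fun ζ => Y' (l ζ)) U := hψd.analyticOnNhd hUo
  have h := han1.eqOn_of_preconnected_of_eventuallyEq han2 hUc.isPreconnected h0U hloc h1U
  have h' : Y (l 1) = Y' (l 1) := h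
  rw [hlp, one_mul, one_mul, add_sub_cancel, add_sub_cancel] at h'
  exact h'

/-- a finite net of the sphere -/
theorem BIC_net (κ : ℝ) (hκ : 0 < κ) (hκ8 : κ ≤ 1 / 8) : ∃ C : Finset (ℂ × ℂ),
    (∀ c ∈ C, c.1 ≠ 0 ∨ c.2 ≠ 0) ∧ ∀ w : ℂ × ℂ, w ≠ 0 → ∃ c ∈ C,
      c.1 * conj w.1 + c.2 * conj w.2 ≠ 0 ∧
      ‖(c.2 * w.1 - c.1 * w.2) / (c.1 * conj w.1 + c.2 * conj w.2)‖ < κ / 40 := by
  obtain ⟨t, ht1, ht2, ht3⟩ := (isCompact_sphere (0 : ℂ × ℂ) 1).finite_cover_balls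
    (e := κ / 200) (by positivity)
  refine ⟨ht2.toFinset, ?_, ?_⟩
  · intro c hc
    rw [Set.Finite.mem_toFinset] at hc
    have h1 := ht1 hc
    rw [mem_sphere_zero_iff_norm] at h1
    by_contra hcon
    push Not at hcon
    have h2 : c = 0 := Prod.ext hcon.1 hcon.2
    rw [h2, norm_zero] at h1
    exact zero_ne_one h1
  · intro w hw
    have hm : 0 < ‖w‖ := norm_pos_iff.2 hw
    obtain ⟨m, hmdef⟩ : ∃ m, m = ‖w‖ := ⟨_, rfl⟩
    rw [← hmdef] at hm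
    obtain ⟨w', hw'⟩ : ∃ w' : ℂ × ℂ, w' = ((m : ℂ)⁻¹ * w.1, (m : ℂ)⁻¹ * w.2) := ⟨_, rfl⟩
    have hm0 : (m : ℂ) ≠ 0 := by exact_mod_cast hm.ne'
    have hw'2 : w' = ((m : ℂ)⁻¹) • w := by rw [hw']; rfl
    have hn : ‖w'‖ = 1 := by
      rw [hw'2, norm_smul, norm_inv, Complex.norm_real, Real.norm_eq_abs, abs_of_pos hm, ← hmdef]
      field_simp
    have hws : w' ∈ sphere (0 : ℂ × ℂ) 1 := mem_sphere_zero_iff_norm.2 hn
    obtain ⟨c, hc, hcw⟩ := mem_iUnion₂.1 (ht3 hws)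
    have hcw' : ‖w' - c‖ < κ / 200 := by rw [← dist_eq_norm]; exact hcw
    have hd1 : ‖w'.1 - c.1‖ ≤ κ / 200 := (norm_fst_le (w' - c)).trans hcw'.le
    have hd2 : ‖w'.2 - c.2‖ ≤ κ / 200 := (norm_snd_le (w' - c)).trans hcw'.le
    have hb1 : ‖w'.1‖ ≤ 1 := (norm_fst_le w').trans hn.le
    have hb2 : ‖w'.2‖ ≤ 1 := (norm_snd_le w').trans hn.le
    have hmax : 1 ≤ ‖w'.1‖ ^ 2 + ‖w'.2‖ ^ 2 := by
      have h1 : max ‖w'.1‖ ‖w'.2‖ = 1 := by rw [← Prod.norm_def]; exact hn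
      rcases max_choice ‖w'.1‖ ‖w'.2‖ with h | h
      · rw [h] at h1
        rw [h1]
        nlinarith [norm_nonneg w'.2]
      · rw [h] at h1
        rw [h1]
        nlinarith [norm_nonneg w'.1]
    have hnum : ‖c.2 * w'.1 - c.1 * w'.2‖ ≤ κ / 100 := by
      have e1 : c.2 * w'.1 - c.1 * w'.2 = (w'.1 - c.1) * w'.2 - (w'.2 - c.2) * w'.1 := by ring
      rw [e1]
      refine (norm_sub_le _ _).trans ?_
      rw [norm_mul, norm_mul]
      have g1 : ‖w'.1 - c.1‖ * ‖w'.2‖ ≤ κ / 200 * 1 := mul_le_mul hd1 hb2 (norm_nonneg _) (by positivity)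
      have g2 : ‖w'.2 - c.2‖ * ‖w'.1‖ ≤ κ / 200 * 1 := mul_le_mul hd2 hb1 (norm_nonneg _) (by positivity)
      linarith
    have hden : 1 - κ / 100 ≤ ‖c.1 * conj w'.1 + c.2 * conj w'.2‖ := by
      have e1 : (((‖w'.1‖ ^ 2 + ‖w'.2‖ ^ 2 : ℝ)) : ℂ) = (c.1 * conj w'.1 + c.2 * conj w'.2) +
          ((w'.1 - c.1) * conj w'.1 + (w'.2 - c.2) * conj w'.2) := by
        have g1 : w'.1 * conj w'.1 = ((‖w'.1‖ ^ 2 : ℝ) : ℂ) := by
          rw [Complex.mul_conj, Complex.normSq_eq_norm_sq]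
        have g2 : w'.2 * conj w'.2 = ((‖w'.2‖ ^ 2 : ℝ) : ℂ) := by
          rw [Complex.mul_conj, Complex.normSq_eq_norm_sq]
        rw [Complex.ofReal_add, ← g1, ← g2]
        ring
      have h2 : ‖w'.1‖ ^ 2 + ‖w'.2‖ ^ 2 = ‖(((‖w'.1‖ ^ 2 + ‖w'.2‖ ^ 2 : ℝ)) : ℂ)‖ := by
        rw [Complex.norm_real, Real.norm_eq_abs, abs_of_nonneg (by positivity)]
      have h3 : ‖(w'.1 - c.1) * conj w'.1 + (w'.2 - c.2) * conj w'.2‖ ≤ κ / 100 := by
        refine (norm_add_le _ _).trans ?_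
        rw [norm_mul, norm_mul, Complex.norm_conj, Complex.norm_conj]
        have g1 : ‖w'.1 - c.1‖ * ‖w'.1‖ ≤ κ / 200 * 1 := mul_le_mul hd1 hb1 (norm_nonneg _) (by positivity)
        have g2 : ‖w'.2 - c.2‖ * ‖w'.2‖ ≤ κ / 200 * 1 := mul_le_mul hd2 hb2 (norm_nonneg _) (by positivity)
        linarith
      have h4 : ‖w'.1‖ ^ 2 + ‖w'.2‖ ^ 2 ≤ ‖c.1 * conj w'.1 + c.2 * conj w'.2‖ +
          ‖(w'.1 - c.1) * conj w'.1 + (w'.2 - c.2) * conj w'.2‖ := by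
        rw [h2, e1]; exact norm_add_le _ _
      linarith
    have hne : c.1 * conj w'.1 + c.2 * conj w'.2 ≠ 0 := by
      intro h0
      rw [h0, norm_zero] at hden
      linarith
    have e1 : c.1 * conj w'.1 + c.2 * conj w'.2 = (m : ℂ)⁻¹ * (c.1 * conj w.1 + c.2 * conj w.2) := by
      rw [hw']
      simp only [map_mul, map_inv₀, Complex.conj_ofReal]
      ring
    have e2 : c.2 * w'.1 - c.1 * w'.2 = (m : ℂ)⁻¹ * (c.2 * w.1 - c.1 * w.2) := by
      rw [hw']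
      ring
    refine ⟨c, ht2.mem_toFinset.2 hc, ?_, ?_⟩
    · intro h0
      rw [e1, h0, mul_zero] at hne
      exact hne rfl
    · have e3 : (c.2 * w.1 - c.1 * w.2) / (c.1 * conj w.1 + c.2 * conj w.2) =
          (c.2 * w'.1 - c.1 * w'.2) / (c.1 * conj w'.1 + c.2 * conj w'.2) := by
        rw [e1, e2, mul_div_mul_left _ _ (inv_ne_zero hm0)]
      rw [e3, norm_div, div_lt_iff₀ (by linarith)]
      have h5 : κ / 40 * (1 - κ / 100) ≤ κ / 40 * ‖c.1 * conj w'.1 + c.2 * conj w'.2‖ :=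
        mul_le_mul_of_nonneg_left hden (by positivity)
      nlinarith

/-- countably many points over one value -/
theorem BIC_count (P Q : ℂ × ℂ → ℂ) (E : ℝ) (hND : ND P Q E) (a b : ℂ) (hab : a ≠ 0 ∨ b ≠ 0)
    (T : Set ℂ) (hT : ∀ y ∈ T, y ∈ ball (0 : ℂ) 1 ∧ P (y, 0) * b = Q (y, 0) * a ∧
      Wr (sl P 0) (sl Q 0) y ≠ 0) : T.Countable := by
  have hopen : IsOpen BI := isOpen_ball.prod isOpen_ball
  have h0b : (0 : ℂ) ∈ ball (0 : ℂ) 1 := mem_ball_self one_pos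
  have hdisc : DiscreteTopology T := by
    rw [discreteTopology_subtype_iff]
    intro y hy
    obtain ⟨hy1, hy2, hy3⟩ := hT y hy
    have hslP : DifferentiableAt ℂ (sl P 0) y := by
      have h1 : DifferentiableAt ℂ P (y, 0) := hND.dP.differentiableAt (hopen.mem_nhds ⟨hy1, h0b⟩)
      exact h1.comp y (differentiableAt_id.prodMk (differentiableAt_const 0))
    have hslQ : DifferentiableAt ℂ (sl Q 0) y := by
      have h1 : DifferentiableAt ℂ Q (y, 0) := hND.dQ.differentiableAt (hopen.mem_nhds ⟨hy1, h0b⟩)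
      exact h1.comp y (differentiableAt_id.prodMk (differentiableAt_const 0))
    have hder : HasDerivAt (fun x => sl P 0 x * b - sl Q 0 x * a)
        (deriv (sl P 0) y * b - deriv (sl Q 0) y * a) y :=
      (hslP.hasDerivAt.mul_const b).sub (hslQ.hasDerivAt.mul_const a)
    obtain ⟨μ, hμ0, hP0, hQ0⟩ := BUQ_mu a b 0 (P (y, 0)) (Q (y, 0)) hab (hND.ne (y, 0) ⟨hy1, h0b⟩)
      (by rw [zero_mul, add_zero, zero_mul, sub_zero]; exact hy2)
    rw [zero_mul, sub_zero] at hP0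
    rw [zero_mul, add_zero] at hQ0
    have hne : deriv (sl P 0) y * b - deriv (sl Q 0) y * a ≠ 0 := by
      intro h
      apply hy3
      unfold Wr
      have e1 : sl P 0 y = P (y, 0) := rfl
      have e2 : sl Q 0 y = Q (y, 0) := rfl
      rw [e1, e2, hP0, hQ0]
      linear_combination μ * h
    have h1 := hder.eventually_ne hne (c := 0)
    have hmem : {x : ℂ | ¬ (x ∈ T)} ∈ 𝓝[≠] y := by
      filter_upwards [h1] with x hx hxT
      apply hx
      have h2 := (hT x hxT).2.1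
      show P (x, 0) * b - Q (x, 0) * a = 0
      rw [h2, sub_self]
    rw [← Filter.empty_mem_iff_bot]
    refine Filter.mem_inf_iff.2 ⟨{x : ℂ | ¬ (x ∈ T)}, hmem, T, Filter.mem_principal_self T, ?_⟩
    ext x
    simp
  have : Countable T := countable_of_Lindelof_of_discrete
  exact Set.countable_coe_iff.1 this

theorem BIC_mono {P Q : ℂ × ℂ → ℂ} {S S' : Set ℂ} {κ r : ℝ} {x0 : ℂ} {Y : ℂ × ℂ → ℂ} (h : S ⊆ S')
    (hY : Band P Q S κ r x0 Y) : Band P Q S' κ r x0 Y :=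
  ⟨hY.1, hY.2.1, fun t ht v hv => ⟨h (hY.2.2 t ht v hv).1, (hY.2.2 t ht v hv).2⟩⟩

theorem BIC (hBSL : BSL_stmt) (hBUQ : BUQ_stmt) (hBBS : BBS_stmt) : BIC_stmt := by
  classical
  have _ := hBSL
  intro κ hκ hκ8
  obtain ⟨C, hC1, hC2⟩ := BIC_net κ hκ hκ8
  refine ⟨C.card, ?_⟩
  intro P Q E r N hND hr hr1 hN hband
  have h0b : (0 : ℂ) ∈ ball (0 : ℂ) 1 := mem_ball_self one_pos
  have hκ2 : 0 < κ / 2 := by linarith
  have h0κ : (0 : ℂ) ∈ ball (0 : ℂ) (κ / 2) := mem_ball_self hκ2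
  have h0r : (0 : ℂ) ∈ ball (0 : ℂ) r := mem_ball_self hr
  have hhalf : ball (0 : ℂ) (1 / 2) ⊆ ball (0 : ℂ) 1 := ball_subset_ball (by norm_num)
  let e := C.equivFin
  obtain ⟨T, hT⟩ : ∃ T : Fin C.card → Set ℂ, T = fun j => {y : ℂ | y ∈ ball (0 : ℂ) (1 / 2) ∧
      P (y, 0) * (e.symm j).1.2 = Q (y, 0) * (e.symm j).1.1 ∧
      ∃ Y : ℂ × ℂ → ℂ, Band P Q (ball 0 (1 / 2)) (κ / 2) r y Y} := ⟨_, rfl⟩
  obtain ⟨Yb, hYb⟩ : ∃ Yb : ℂ → ℂ × ℂ → ℂ, ∀ y : ℂ,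
      (∃ Y : ℂ × ℂ → ℂ, Band P Q (ball 0 (1 / 2)) (κ / 2) r y Y) →
      Band P Q (ball 0 (1 / 2)) (κ / 2) r y (Yb y) := by
    refine ⟨fun y => if h : ∃ Y : ℂ × ℂ → ℂ, Band P Q (ball 0 (1 / 2)) (κ / 2) r y Y then h.choose
      else fun _ => 0, ?_⟩
    intro y hy
    simp only [dif_pos hy]
    exact hy.choose_spec
  have hTm : ∀ j, ∀ y ∈ T j, y ∈ ball (0 : ℂ) (1 / 2) ∧
      P (y, 0) * (e.symm j).1.2 = Q (y, 0) * (e.symm j).1.1 ∧
      Band P Q (ball 0 (1 / 2)) (κ / 2) r y (Yb y) := by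
    intro j y hy
    rw [hT] at hy
    obtain ⟨h1, h2, h3⟩ := hy
    exact ⟨h1, h2, hYb y h3⟩
  have hWn : ∀ y ∈ ball (0 : ℂ) (1 / 2), ∀ Y, Band P Q (ball 0 (1 / 2)) (κ / 2) r y Y →
      ∀ t ∈ ball (0 : ℂ) (κ / 2), ∀ v ∈ ball (0 : ℂ) r, Wr (sl P v) (sl Q v) (Y (t, v)) ≠ 0 ∧
      P (Y (t, v), v) * conj (P (y, 0)) + Q (Y (t, v), v) * conj (Q (y, 0)) ≠ 0 := by
    intro y hy Y hYB t ht v hv
    have h1 := (hBUQ P Q E hND y (hhalf hy) (κ / 2) r Y hκ2 hr hr1 (BIC_mono hhalf hYB)).1 t ht v hv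
    exact ⟨h1.1, h1.2.1⟩
  refine ⟨T, Yb, ?_, ?_, ?_⟩
  · intro j
    refine ⟨?_, fun y hy => ⟨(hTm j y hy).1, (hTm j y hy).2.2⟩⟩
    refine BIC_count P Q E hND (e.symm j).1.1 (e.symm j).1.2 (hC1 _ (e.symm j).2) (T j) ?_
    intro y hy
    obtain ⟨h1, h2, h3⟩ := hTm j y hy
    refine ⟨hhalf h1, h2, ?_⟩
    have h4 := (hWn y h1 (Yb y) h3 0 h0κ 0 h0r).1
    rw [h3.2.1] at h4
    exact h4
  · intro j y hy y' hy' hne t ht t' ht' v hv heq
    obtain ⟨h1, h2, h3⟩ := hTm j y hy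
    obtain ⟨h1', h2', h3'⟩ := hTm j y' hy'
    have hcne := hC1 _ (e.symm j).2
    obtain ⟨a, ha⟩ : ∃ a, a = (e.symm j).1.1 := ⟨_, rfl⟩
    obtain ⟨b, hb⟩ : ∃ b, b = (e.symm j).1.2 := ⟨_, rfl⟩
    rw [← ha, ← hb] at h2 h2' hcne
    obtain ⟨μ, hμ0, hP0, hQ0⟩ := BUQ_mu a b 0 (P (y, 0)) (Q (y, 0)) hcne
      (hND.ne (y, 0) ⟨hhalf h1, h0b⟩) (by rw [zero_mul, add_zero, zero_mul, sub_zero]; exact h2)
    rw [zero_mul, sub_zero] at hP0
    rw [zero_mul, add_zero] at hQ0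
    obtain ⟨μ', hμ0', hP0', hQ0'⟩ := BUQ_mu a b 0 (P (y', 0)) (Q (y', 0)) hcne
      (hND.ne (y', 0) ⟨hhalf h1', h0b⟩) (by rw [zero_mul, add_zero, zero_mul, sub_zero]; exact h2')
    rw [zero_mul, sub_zero] at hP0'
    rw [zero_mul, add_zero] at hQ0'
    -- the unimodular factors
    obtain ⟨m, hm⟩ : ∃ m, m = conj μ / μ := ⟨_, rfl⟩
    obtain ⟨m', hm'⟩ : ∃ m', m' = conj μ' / μ' := ⟨_, rfl⟩
    have hmn : ‖m‖ = 1 := by
      rw [hm, norm_div, Complex.norm_conj, div_self (norm_ne_zero_iff.mpr hμ0)]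
    have hmn' : ‖m'‖ = 1 := by
      rw [hm', norm_div, Complex.norm_conj, div_self (norm_ne_zero_iff.mpr hμ0')]
    have hm0 : m ≠ 0 := by
      intro h; rw [h, norm_zero] at hmn; exact zero_ne_one hmn
    have hm0' : m' ≠ 0 := by
      intro h; rw [h, norm_zero] at hmn'; exact zero_ne_one hmn'
    have hmμ : m * μ = conj μ := by rw [hm]; field_simp
    have hmμ' : m' * μ' = conj μ' := by rw [hm']; field_simp
    -- both bands in the frame (a, b)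
    have hscale : ∀ (n : ℂ), ‖n‖ = 1 → ∀ s ∈ ball (0 : ℂ) (κ / 2), s / n ∈ ball (0 : ℂ) (κ / 2) := by
      intro n hn s hs
      rw [mem_ball_zero_iff] at hs ⊢
      rw [norm_div, hn, div_one]
      exact hs
    have hZd : ∀ (n : ℂ) (hn : ‖n‖ = 1) (Y : ℂ × ℂ → ℂ),
        DifferentiableOn ℂ Y (ball (0 : ℂ) (κ / 2) ×ˢ ball (0 : ℂ) r) →
        DifferentiableOn ℂ (fun p : ℂ × ℂ => Y (p.1 / n, p.2)) (ball (0 : ℂ) (κ / 2) ×ˢ ball (0 : ℂ) r) := by
      intro n hn Y hYd p hp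
      have h4 : DifferentiableAt ℂ Y (p.1 / n, p.2) :=
        hYd.differentiableAt ((isOpen_ball.prod isOpen_ball).mem_nhds ⟨hscale n hn _ hp.1, hp.2⟩)
      have h5 : DifferentiableAt ℂ (fun p : ℂ × ℂ => (p.1 / n, p.2)) p := by
        simp only [div_eq_mul_inv]
        exact (differentiableAt_fst.mul_const n⁻¹).prodMk differentiableAt_snd
      exact (h4.comp p h5).differentiableWithinAt
    have hZe : ∀ (n ν : ℂ) (hn : ‖n‖ = 1) (hν : ν ≠ 0) (hnν : n * ν = conj ν) (w : ℂ) (Y : ℂ × ℂ → ℂ),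
        P (w, 0) = ν * a → Q (w, 0) = ν * b → Band P Q (ball 0 (1 / 2)) (κ / 2) r w Y →
        ∀ s ∈ ball (0 : ℂ) (κ / 2), ∀ u ∈ ball (0 : ℂ) r,
          (fun p : ℂ × ℂ => Y (p.1 / n, p.2)) (s, u) ∈ ball (0 : ℂ) 1 ∧
          P ((fun p : ℂ × ℂ => Y (p.1 / n, p.2)) (s, u), u) * (b + s * conj a) =
            Q ((fun p : ℂ × ℂ => Y (p.1 / n, p.2)) (s, u), u) * (a - s * conj b) := by
      intro n ν hn hν hnν w Y hPw hQw hYB s hs u hu
      have hn0 : n ≠ 0 := by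
        intro h; rw [h, norm_zero] at hn; exact zero_ne_one hn
      obtain ⟨g1, g2⟩ := hYB.2.2 (s / n) (hscale n hn s hs) u hu
      refine ⟨hhalf g1, ?_⟩
      show P (Y (s / n, u), u) * (b + s * conj a) = Q (Y (s / n, u), u) * (a - s * conj b)
      rw [hPw, hQw, map_mul, map_mul, ← hnν] at g2
      have e1 : s / n * (n * ν * conj a) = ν * (s * conj a) := by field_simp
      have e2 : s / n * (n * ν * conj b) = ν * (s * conj b) := by field_simp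
      rw [e1, e2] at g2
      apply mul_left_cancel₀ hν
      linear_combination g2
    have hZ1 := hZe m μ hmn hμ0 hmμ y (Yb y) hP0 hQ0 h3
    have hZ2 := hZe m' μ' hmn' hμ0' hmμ' y' (Yb y') hP0' hQ0' h3'
    -- the coordinates agree
    have hs1 : m * t ∈ ball (0 : ℂ) (κ / 2) := by
      rw [mem_ball_zero_iff] at ht ⊢
      rw [norm_mul, hmn, one_mul]; exact ht
    have hs2 : m' * t' ∈ ball (0 : ℂ) (κ / 2) := by
      rw [mem_ball_zero_iff] at ht' ⊢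
      rw [norm_mul, hmn', one_mul]; exact ht'
    have e1 := (hZ1 (m * t) hs1 v hv).2
    have e2 := (hZ2 (m' * t') hs2 v hv).2
    have c1 : m * t / m = t := by field_simp
    have c2 : m' * t' / m' = t' := by field_simp
    simp only [c1] at e1
    simp only [c2] at e2
    rw [← heq] at e2
    have hbr := (hWn y h1 (Yb y) h3 t ht v hv).2
    rw [hP0, hQ0, map_mul, map_mul] at hbr
    have hbr' : P (Yb y (t, v), v) * conj a + Q (Yb y (t, v), v) * conj b ≠ 0 := by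
      intro h
      apply hbr
      linear_combination (conj μ) * h
    have e3 : (m * t - m' * t') * (P (Yb y (t, v), v) * conj a + Q (Yb y (t, v), v) * conj b) = 0 := by
      linear_combination e1 - e2
    have e4 : m * t = m' * t' := by
      rcases mul_eq_zero.mp e3 with h | h
      · exact sub_eq_zero.mp h
      · exact absurd h hbr'
    have hWt : Wr (sl P v) (sl Q v) ((fun p : ℂ × ℂ => Yb y (p.1 / m, p.2)) (m * t, v)) ≠ 0 := by
      show Wr (sl P v) (sl Q v) (Yb y (m * t / m, v)) ≠ 0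
      rw [c1]
      exact (hWn y h1 (Yb y) h3 t ht v hv).1
    have hag : (fun p : ℂ × ℂ => Yb y (p.1 / m, p.2)) (m * t, v) =
        (fun p : ℂ × ℂ => Yb y' (p.1 / m', p.2)) (m * t, v) := by
      show Yb y (m * t / m, v) = Yb y' (m * t / m', v)
      rw [c1, e4, c2]
      exact heq
    have hfin := BIC_uni P Q E hND a b hcne (κ / 2) r hr1 _ _ (hZd m hmn (Yb y) h3.1)
      (hZd m' hmn' (Yb y') h3'.1) hZ1 hZ2 (m * t) v hs1 hv hWt hag 0 0 h0κ h0r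
    have hfin' : Yb y (0 / m, 0) = Yb y' (0 / m', 0) := hfin
    rw [zero_div, zero_div, h3.2.1, h3'.2.1] at hfin'
    exact hne hfin'
  · intro x hx
    obtain ⟨Y, hY⟩ := hband x hx
    have hx6 : ‖x‖ < 1 / 6 := mem_ball_zero_iff.1 (hN hx)
    have hx1 : x ∈ ball (0 : ℂ) 1 := by rw [mem_ball_zero_iff]; linarith
    have hw : ((P (x, 0), Q (x, 0)) : ℂ × ℂ) ≠ 0 := by
      intro h
      rcases hND.ne (x, 0) ⟨hx1, h0b⟩ with h1 | h1
      · exact h1 (congrArg Prod.fst h)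
      · exact h1 (congrArg Prod.snd h)
    obtain ⟨c, hc, hc1, hc2⟩ := hC2 _ hw
    obtain ⟨t₀, ht₀⟩ : ∃ t₀, t₀ = (c.2 * P (x, 0) - c.1 * Q (x, 0)) /
        (c.1 * conj (P (x, 0)) + c.2 * conj (Q (x, 0))) := ⟨_, rfl⟩
    have hc1' : c.1 * conj (P (x, 0)) + c.2 * conj (Q (x, 0)) ≠ 0 := hc1
    have ht₀n : ‖t₀‖ < κ / 40 := by rw [ht₀]; exact hc2
    have ht₀κ : t₀ ∈ ball (0 : ℂ) κ := by rw [mem_ball_zero_iff]; linarith
    have hsub : ball (0 : ℂ) 1 ∩ ball x (1 / 3) ⊆ ball (0 : ℂ) 1 := inter_subset_left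
    have hsub2 : ball (0 : ℂ) 1 ∩ ball x (1 / 3) ⊆ ball (0 : ℂ) (1 / 2) := by
      intro z hz
      have h1 := hz.2
      rw [mem_ball, dist_eq_norm] at h1
      rw [mem_ball_zero_iff]
      have : ‖z‖ ≤ ‖z - x‖ + ‖x‖ := by
        calc ‖z‖ = ‖(z - x) + x‖ := by rw [sub_add_cancel]
          _ ≤ _ := norm_add_le _ _
      linarith
    obtain ⟨l, hl, hl2⟩ := hBBS P Q E hND x hx1 _ κ r Y hsub hr hr1 (by linarith) hY t₀ ht₀κ
    have hB := BIC_mono hsub2 (hl2 (κ / 2) (by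
      intro s hs
      rw [mem_ball_zero_iff] at hs
      have g1 : ‖s + t₀‖ < κ / 2 + κ / 40 := by
        have := norm_add_le s t₀
        linarith
      have g2 : ‖conj t₀ * s‖ ≤ 1 / 100 := by
        rw [norm_mul, Complex.norm_conj]
        have : ‖t₀‖ * ‖s‖ ≤ (1 / 320) * (1 / 16) := by
          apply mul_le_mul (by linarith) (by linarith) (norm_nonneg _) (by norm_num)
        linarith
      have g3 : 1 - 1 / 100 ≤ ‖1 - conj t₀ * s‖ := by
        have h5 : ‖(1 : ℂ)‖ ≤ ‖1 - conj t₀ * s‖ + ‖conj t₀ * s‖ := by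
          calc ‖(1 : ℂ)‖ = ‖(1 - conj t₀ * s) + conj t₀ * s‖ := by rw [sub_add_cancel]
            _ ≤ _ := norm_add_le _ _
        rw [norm_one] at h5
        linarith
      have g4 : κ * (1 - 1 / 100) ≤ κ * ‖1 - conj t₀ * s‖ := mul_le_mul_of_nonneg_left g3 hκ.le
      linarith))
    obtain ⟨y, hy⟩ : ∃ y, y = Y (t₀, 0) := ⟨_, rfl⟩
    rw [← hy] at hB
    have hyS := (hY.2.2 t₀ ht₀κ 0 h0r)
    rw [← hy] at hyS
    have hy2 : y ∈ ball (0 : ℂ) (1 / 2) := hsub2 hyS.1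
    -- the value at y
    have hval : P (y, 0) * c.2 = Q (y, 0) * c.1 := by
      have e1 : t₀ * (c.1 * conj (P (x, 0)) + c.2 * conj (Q (x, 0))) =
          c.2 * P (x, 0) - c.1 * Q (x, 0) := by
        rw [ht₀]; field_simp
      have e2 : c.1 * (Q (x, 0) + t₀ * conj (P (x, 0))) = c.2 * (P (x, 0) - t₀ * conj (Q (x, 0))) := by
        linear_combination e1
      obtain ⟨μ, hμ0, hP0, hQ0⟩ := BUQ_mu (P (x, 0)) (Q (x, 0)) t₀ (P (y, 0)) (Q (y, 0))
        (hND.ne (x, 0) ⟨hx1, h0b⟩) (hND.ne (y, 0) ⟨hhalf hy2, h0b⟩) hyS.2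
      rw [hP0, hQ0]
      linear_combination (-μ) * e2
    refine ⟨e ⟨c, hc⟩, y, ?_, ?_⟩
    · rw [hT]
      refine ⟨hy2, ?_, _, hB⟩
      rw [Equiv.symm_apply_apply]
      exact hval
    · have hl0 : l ≠ 0 := by
        intro h; rw [h, norm_zero] at hl; exact zero_ne_one hl
      have ht1 : -t₀ / l ∈ ball (0 : ℂ) (κ / 32) := by
        rw [mem_ball_zero_iff, norm_div, norm_neg, hl, div_one]
        linarith
      have ht2 : -t₀ / l ∈ ball (0 : ℂ) (κ / 2) := ball_subset_ball (by linarith) ht1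
      refine ⟨-t₀ / l, ht1, ?_⟩
      have hYB := hYb y ⟨_, hB⟩
      have h5 := (hBUQ P Q E hND y (hhalf hy2) (κ / 2) r (Yb y) hκ2 hr hr1 (BIC_mono hhalf hYB)).2.2
        (κ / 2) r _ hr1 (BIC_mono hhalf hB) (-t₀ / l) ht2 0 h0r ht2 h0r
      rw [h5]
      show Y ((l * (-t₀ / l) + t₀) / (1 - conj t₀ * (l * (-t₀ / l))), 0) = x
      have e1 : l * (-t₀ / l) + t₀ = 0 := by field_simp; ring
      rw [e1, zero_div]
      exact hY.2.1

end Pool.Agent.P2B
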