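import Pool.Agent.helper15.P2.SpecI

set_option autoImplicit false

/-!
# Project P2 (MP_063734_an), row BRA: inverse branches in the tangent coordinate
-/

open scoped ContDiff Topology ComplexConjugate
open MeasureTheory Filter Set Metric

namespace Pool.Agent.P2I

open Pool.Agent.P2

theorem BRA_lagrange (p q a b : ℂ) :
    Complex.normSq (p * conj a + q * conj b) + Complex.normSq (q * a - p * b) =
      (Complex.normSq p + Complex.normSq q) * (Complex.normSq a + Complex.normSq b) := by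
  simp only [Complex.normSq_apply, Complex.add_re, Complex.add_im, Complex.mul_re, Complex.mul_im,
    Complex.sub_re, Complex.sub_im, Complex.conj_re, Complex.conj_im]
  ring

theorem BRA_pos (p q : ℂ) (h : p ≠ 0 ∨ q ≠ 0) : 0 < Complex.normSq p + Complex.normSq q := by
  rcases h with h | h
  · have := Complex.normSq_pos.2 h
    have := Complex.normSq_nonneg q
    linarith
  · have := Complex.normSq_pos.2 h
    have := Complex.normSq_nonneg p
    linarith

theorem BRA_deriv (P Q : ℂ → ℂ) (z x : ℂ) (hP : DifferentiableAt ℂ P x)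
    (hQ : DifferentiableAt ℂ Q x) (hD : P x * conj (P z) + Q x * conj (Q z) ≠ 0) :
    HasDerivAt (Hz P Q z) (-(Wr P Q x) * ((Complex.normSq (P z) + Complex.normSq (Q z) : ℝ) : ℂ) /
      (P x * conj (P z) + Q x * conj (Q z)) ^ 2) x := by
  have h1 : HasDerivAt (fun x => Q x * P z - P x * Q z) (deriv Q x * P z - deriv P x * Q z) x :=
    (hQ.hasDerivAt.mul_const _).sub (hP.hasDerivAt.mul_const _)
  have h2 : HasDerivAt (fun x => P x * conj (P z) + Q x * conj (Q z))
      (deriv P x * conj (P z) + deriv Q x * conj (Q z)) x :=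
    (hP.hasDerivAt.mul_const _).add (hQ.hasDerivAt.mul_const _)
  have h3 := h1.div h2 hD
  have e : -(Wr P Q x) * ((Complex.normSq (P z) + Complex.normSq (Q z) : ℝ) : ℂ) /
      (P x * conj (P z) + Q x * conj (Q z)) ^ 2 =
      ((deriv Q x * P z - deriv P x * Q z) * (P x * conj (P z) + Q x * conj (Q z)) -
        (Q x * P z - P x * Q z) * (deriv P x * conj (P z) + deriv Q x * conj (Q z))) /
        (P x * conj (P z) + Q x * conj (Q z)) ^ 2 := by
    congr 1
    unfold Wr
    rw [Complex.ofReal_add, ← Complex.mul_conj, ← Complex.mul_conj]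
    ring
  rw [e]
  exact h3

theorem BRA_key (P Q : ℂ → ℂ) (z x : ℂ) (hx : P x ≠ 0 ∨ Q x ≠ 0)
    (hD : P x * conj (P z) + Q x * conj (Q z) ≠ 0) :
    Complex.normSq (-(Wr P Q x) * ((Complex.normSq (P z) + Complex.normSq (Q z) : ℝ) : ℂ) /
      (P x * conj (P z) + Q x * conj (Q z)) ^ 2) =
      sph P Q x * (1 + Complex.normSq (Hz P Q z x)) ^ 2 := by
  have h1 := BRA_lagrange (P x) (Q x) (P z) (Q z)
  have h2 := BRA_pos _ _ hx
  have h3 : 0 < Complex.normSq (P x * conj (P z) + Q x * conj (Q z)) := Complex.normSq_pos.2 hD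
  unfold sph Hz
  rw [Complex.normSq_div, Complex.normSq_div, Complex.normSq_mul, Complex.normSq_neg,
    Complex.normSq_ofReal, map_pow]
  have e : 1 + Complex.normSq (Q x * P z - P x * Q z) / Complex.normSq (P x * conj (P z) + Q x * conj (Q z)) =
      (Complex.normSq (P x) + Complex.normSq (Q x)) * (Complex.normSq (P z) + Complex.normSq (Q z)) /
        Complex.normSq (P x * conj (P z) + Q x * conj (Q z)) := by
    rw [← h1]
    field_simp
  rw [e]
  have h4 : Complex.normSq (P x) + Complex.normSq (Q x) ≠ 0 := h2.ne'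
  have h5 : Complex.normSq (P x * conj (P z) + Q x * conj (Q z)) ≠ 0 := h3.ne'
  field_simp

/-- one inverse branch -/
theorem BRA_br (P Q : ℂ → ℂ) (hA : Adm P Q) (z : ℂ) (hz : z ∈ ball (0 : ℂ) 1) (τ : ℝ) (X : ℂ → ℂ)
    (hB : Br P Q (ball 0 1) z τ X) (t : ℂ) (ht : t ∈ ball (0 : ℂ) τ) :
    P (X t) * conj (P z) + Q (X t) * conj (Q z) ≠ 0 ∧ Hz P Q z (X t) = t := by
  obtain ⟨-, -, h3⟩ := hB
  obtain ⟨hx, heq⟩ := h3 t ht
  have h1 : t * (P (X t) * conj (P z) + Q (X t) * conj (Q z)) = Q (X t) * P z - P (X t) * Q z := by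
    linear_combination heq
  have hne : P (X t) * conj (P z) + Q (X t) * conj (Q z) ≠ 0 := by
    intro h0
    have h2 := BRA_lagrange (P (X t)) (Q (X t)) (P z) (Q z)
    rw [← h1, h0, mul_zero, map_zero, add_zero] at h2
    have h4 := mul_pos (BRA_pos _ _ (hA.2.2 _ hx)) (BRA_pos _ _ (hA.2.2 _ hz))
    linarith
  refine ⟨hne, ?_⟩
  unfold Hz
  rw [← h1]
  field_simp

theorem BRA : BRA_stmt := by
  intro P Q hA z hz
  have hPd : ∀ x ∈ ball (0 : ℂ) 1, DifferentiableAt ℂ P x := fun x hx =>
    hA.1.differentiableAt (isOpen_ball.mem_nhds hx)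
  have hQd : ∀ x ∈ ball (0 : ℂ) 1, DifferentiableAt ℂ Q x := fun x hx =>
    hA.2.1.differentiableAt (isOpen_ball.mem_nhds hx)
  refine ⟨?_, ?_, ?_⟩
  · intro x hx hD
    have h1 := BRA_deriv P Q z x (hPd x hx) (hQd x hx) hD
    refine ⟨h1.differentiableAt, ?_⟩
    rw [h1.deriv]
    exact BRA_key P Q z x (hA.2.2 x hx) hD
  · intro τ X hτ hB
    have hall : ∀ t ∈ ball (0 : ℂ) τ, P (X t) * conj (P z) + Q (X t) * conj (Q z) ≠ 0 ∧
        Hz P Q z (X t) = t ∧ Wr P Q (X t) ≠ 0 ∧
        Complex.normSq (deriv X t) * sph P Q (X t) * (1 + Complex.normSq t) ^ 2 = 1 := by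
      intro t ht
      obtain ⟨h1, h2⟩ := BRA_br P Q hA z hz τ X hB t ht
      obtain ⟨hXd, hX0, hXe⟩ := hB
      have hx := (hXe t ht).1
      have hd1 := BRA_deriv P Q z (X t) (hPd _ hx) (hQd _ hx) h1
      have hd2 : HasDerivAt X (deriv X t) t :=
        (hXd.differentiableAt (isOpen_ball.mem_nhds ht)).hasDerivAt
      have hd3 := hd1.comp t hd2
      have hev : (Hz P Q z ∘ X) =ᶠ[𝓝 t] id := by
        filter_upwards [isOpen_ball.mem_nhds ht] with s hs
        exact (BRA_br P Q hA z hz τ X ⟨hXd, hX0, hXe⟩ s hs).2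
      have hd4 : HasDerivAt (Hz P Q z ∘ X) 1 t := (hasDerivAt_id t).congr_of_eventuallyEq hev
      have hmul := hd3.unique hd4
      have hn := congrArg Complex.normSq hmul
      rw [Complex.normSq_mul, BRA_key P Q z (X t) (hA.2.2 _ hx) h1, h2, map_one] at hn
      refine ⟨h1, h2, ?_, ?_⟩
      · intro h0
        have : sph P Q (X t) = 0 := by
          unfold sph
          rw [h0, map_zero, zero_div]
        rw [this] at hn
        norm_num at hn
      · linear_combination hn
    refine ⟨?_, ?_, hall⟩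
    · have h0 := (hall 0 (mem_ball_self hτ)).2.2.1
      rwa [hB.2.1] at h0
    · intro s hs t ht hst
      rw [← (hall s hs).2.1, ← (hall t ht).2.1, hst]
  · intro τ τ' X X' hB hB' t ht ht'
    have hτ : 0 < τ := by
      rw [mem_ball_zero_iff] at ht
      exact lt_of_le_of_lt (norm_nonneg _) ht
    have hτ' : 0 < τ' := by
      rw [mem_ball_zero_iff] at ht'
      exact lt_of_le_of_lt (norm_nonneg _) ht'
    have hz0 := BRA_br P Q hA z hz τ X hB 0 (mem_ball_self hτ)
    rw [hB.2.1] at hz0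
    -- the strict derivative at z
    have hPa : AnalyticAt ℂ P z := hA.1.analyticAt (isOpen_ball.mem_nhds hz)
    have hQa : AnalyticAt ℂ Q z := hA.2.1.analyticAt (isOpen_ball.mem_nhds hz)
    have hHa : AnalyticAt ℂ (Hz P Q z) z := by
      have h1 : AnalyticAt ℂ (fun x => Q x * P z - P x * Q z) z :=
        (hQa.mul analyticAt_const).sub (hPa.mul analyticAt_const)
      have h2 : AnalyticAt ℂ (fun x => P x * conj (P z) + Q x * conj (Q z)) z :=
        (hPa.mul analyticAt_const).add (hQa.mul analyticAt_const)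
      exact h1.div h2 hz0.1
    have hd := hHa.hasStrictDerivAt
    have hne : deriv (Hz P Q z) z ≠ 0 := by
      have hXd := hB.1.differentiableAt (isOpen_ball.mem_nhds (mem_ball_self hτ))
      have hd2 : HasDerivAt X (deriv X 0) 0 := hXd.hasDerivAt
      have hd1 : HasDerivAt (Hz P Q z) (deriv (Hz P Q z) z) (X 0) := by
        rw [hB.2.1]; exact hd.hasDerivAt
      have hd3 := hd1.comp 0 hd2
      have hev : (Hz P Q z ∘ X) =ᶠ[𝓝 0] id := by
        filter_upwards [isOpen_ball.mem_nhds (mem_ball_self hτ)] with s hs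
        exact (BRA_br P Q hA z hz τ X hB s hs).2
      have hd4 : HasDerivAt (Hz P Q z ∘ X) 1 0 := (hasDerivAt_id 0).congr_of_eventuallyEq hev
      have hmul := hd3.unique hd4
      intro h0
      rw [h0, zero_mul] at hmul
      exact zero_ne_one hmul
    have hloc := (hd.hasStrictFDerivAt_equiv hne).eventually_left_inverse
    have hagree : ∀ (ρ : ℝ) (Z : ℂ → ℂ), 0 < ρ → Br P Q (ball 0 1) z ρ Z →
        ∀ᶠ s in 𝓝 (0 : ℂ), (hd.hasStrictFDerivAt_equiv hne).localInverse _ _ _ s = Z s := by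
      intro ρ Z hρ hZ
      have hc : ContinuousAt Z 0 :=
        (hZ.1.differentiableAt (isOpen_ball.mem_nhds (mem_ball_self hρ))).continuousAt
      have hc' : Tendsto Z (𝓝 0) (𝓝 z) := by
        have := hc.tendsto
        rwa [hZ.2.1] at this
      filter_upwards [hc'.eventually hloc, isOpen_ball.mem_nhds (mem_ball_self hρ)] with s hs hs2
      rw [(BRA_br P Q hA z hz ρ Z hZ s hs2).2] at hs
      exact hs
    have heq0 : X =ᶠ[𝓝 0] X' := by
      filter_upwards [hagree τ X hτ hB, hagree τ' X' hτ' hB'] with s h1 h2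
      rw [← h1, ← h2]
    have hmin : 0 < min τ τ' := lt_min hτ hτ'
    have hXa : AnalyticOnNhd ℂ X (ball 0 (min τ τ')) := by
      intro s hs
      exact hB.1.analyticAt (isOpen_ball.mem_nhds (ball_subset_ball (min_le_left _ _) hs))
    have hXa' : AnalyticOnNhd ℂ X' (ball 0 (min τ τ')) := by
      intro s hs
      exact hB'.1.analyticAt (isOpen_ball.mem_nhds (ball_subset_ball (min_le_right _ _) hs))
    have hconn : IsPreconnected (ball (0 : ℂ) (min τ τ')) :=
      (convex_ball (0 : ℂ) (min τ τ')).isPreconnected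
    have hfin := hXa.eqOn_of_preconnected_of_eventuallyEq hXa' hconn (mem_ball_self hmin) heq0
    apply hfin
    rw [mem_ball_zero_iff] at ht ht' ⊢
    exact lt_min ht ht'

end Pool.Agent.P2I
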