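import Pool.Agent.helper15.P2.SpecI

set_option autoImplicit false

/-!
# Project P2 (MP_063734_an), row IFT: lower bound for the univalence radius
-/

open scoped ContDiff Topology ComplexConjugate
open MeasureTheory Filter Set Metric

namespace Pool.Agent.P2I

open Pool.Agent.P2

theorem IFT_lagrange (p q a b : ℂ) :
    Complex.normSq (p * conj a + q * conj b) + Complex.normSq (q * a - p * b) =
      (Complex.normSq p + Complex.normSq q) * (Complex.normSq a + Complex.normSq b) := by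
  simp only [Complex.normSq_apply, Complex.add_re, Complex.add_im, Complex.mul_re, Complex.mul_im,
    Complex.sub_re, Complex.sub_im, Complex.conj_re, Complex.conj_im]
  ring

theorem IFT_pos (p q : ℂ) (h : p ≠ 0 ∨ q ≠ 0) : 0 < Complex.normSq p + Complex.normSq q := by
  rcases h with h | h
  · have := Complex.normSq_pos.2 h
    have := Complex.normSq_nonneg q
    linarith
  · have := Complex.normSq_pos.2 h
    have := Complex.normSq_nonneg p
    linarith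

theorem IFT_bd (P Q : ℂ → ℂ) (E : ℝ) (hA : Adm P Q)
    (hU : ∀ z ∈ ball (0 : ℂ) 1, |Up P Q z| ≤ E) (x : ℂ) (hx : x ∈ ball (0 : ℂ) 1) :
    1 / Real.exp E ^ 2 ≤ Complex.normSq (P x) + Complex.normSq (Q x) ∧
      Complex.normSq (P x) + Complex.normSq (Q x) ≤ Real.exp E ^ 2 ∧ ‖P x‖ ≤ Real.exp E ∧
      ‖Q x‖ ≤ Real.exp E := by
  have hp := IFT_pos _ _ (hA.2.2 x hx)
  have h1 := abs_le.1 (hU x hx)
  unfold Up at h1
  have h2 : Complex.normSq (P x) + Complex.normSq (Q x) ≤ Real.exp E ^ 2 := by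
    rw [← Real.exp_nat_mul, ← Real.log_le_iff_le_exp hp]
    push_cast
    linarith [h1.2]
  have h3 : 1 / Real.exp E ^ 2 ≤ Complex.normSq (P x) + Complex.normSq (Q x) := by
    rw [← Real.exp_nat_mul, one_div, ← Real.exp_neg, ← Real.le_log_iff_exp_le hp]
    push_cast
    linarith [h1.1]
  refine ⟨h3, h2, ?_, ?_⟩
  · apply le_of_sq_le_sq _ (Real.exp_pos E).le
    rw [← Complex.normSq_eq_norm_sq]
    linarith [Complex.normSq_nonneg (Q x)]
  · apply le_of_sq_le_sq _ (Real.exp_pos E).le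
    rw [← Complex.normSq_eq_norm_sq]
    linarith [Complex.normSq_nonneg (P x)]

/-- the Schwarz lemma for a bounded function -/
theorem IFT_schwarz (P : ℂ → ℂ) (k : ℝ) (hk : 0 < k) (hP : DifferentiableOn ℂ P (ball 0 1))
    (hb : ∀ x ∈ ball (0 : ℂ) 1, ‖P x‖ ≤ k) (z : ℂ) (hz : z ∈ ball (0 : ℂ) 1) :
    (∀ x ∈ ball z (1 - ‖z‖), ‖P x - P z‖ ≤ 3 * k / (1 - ‖z‖) * ‖x - z‖) ∧
      ‖deriv P z‖ ≤ 3 * k / (1 - ‖z‖) := by
  have hz' : ‖z‖ < 1 := mem_ball_zero_iff.1 hz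
  have hsub : ball z (1 - ‖z‖) ⊆ ball (0 : ℂ) 1 := by
    apply ball_subset_ball'
    rw [dist_zero_right]
    linarith
  have hmaps : MapsTo P (ball z (1 - ‖z‖)) (closedBall (P z) (3 * k)) := by
    intro x hx
    rw [mem_closedBall, dist_eq_norm]
    have h1 := hb x (hsub hx)
    have h2 := hb z hz
    have h3 := norm_sub_le (P x) (P z)
    linarith
  constructor
  · intro x hx
    have h := Complex.dist_le_div_mul_dist_of_mapsTo_ball (hP.mono hsub) hmaps hx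
    rwa [dist_eq_norm, dist_eq_norm] at h
  · exact Complex.norm_deriv_le_div_of_mapsTo_ball (hP.mono hsub) hmaps (by linarith)

theorem IFT (hQOM : QOM_stmt) (hBRA : BRA_stmt) (hBRC : BRC_stmt) : IFT_stmt := by
  intro P Q E hA hE hU z hz
  obtain ⟨hr0, -, -, -, hrmax⟩ := hBRC P Q hA z hz
  by_cases hW : Wr P Q z = 0
  · rw [hW, norm_zero]
    norm_num
    exact hr0
  have hz' : ‖z‖ < 1 := mem_ball_zero_iff.1 hz
  obtain ⟨k, hk⟩ : ∃ k, k = Real.exp E := ⟨_, rfl⟩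
  have hk2 : 2 ≤ k := by
    have := Real.add_one_le_exp E
    rw [hk]; linarith
  have hk0 : 0 < k := by linarith
  obtain ⟨δ, hδ⟩ : ∃ δ, δ = 1 - ‖z‖ := ⟨_, rfl⟩
  have hδ0 : 0 < δ := by rw [hδ]; linarith
  have hδ1 : δ ≤ 1 := by rw [hδ]; linarith [norm_nonneg z]
  have hbd := IFT_bd P Q E hA hU
  rw [← hk] at hbd
  obtain ⟨hPs, hPd⟩ := IFT_schwarz P k hk0 hA.1 (fun x hx => (hbd x hx).2.2.1) z hz
  obtain ⟨hQs, hQd⟩ := IFT_schwarz Q k hk0 hA.2.1 (fun x hx => (hbd x hx).2.2.2) z hz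
  rw [← hδ] at hPs hPd hQs hQd
  obtain ⟨hA1, hA2, hPz, hQz⟩ := hbd z hz
  have hApos := IFT_pos _ _ (hA.2.2 z hz)
  set A : ℝ := Complex.normSq (P z) + Complex.normSq (Q z) with hAdef
  -- the small disc
  obtain ⟨δ₁, hδ₁⟩ : ∃ δ₁, δ₁ = δ / (16 * k ^ 4) := ⟨_, rfl⟩
  have hδ₁0 : 0 < δ₁ := by rw [hδ₁]; positivity
  have hδ₁δ : δ₁ ≤ δ := by
    rw [hδ₁, div_le_iff₀ (by positivity)]
    have : 1 ≤ 16 * k ^ 4 := by
      have : 1 ≤ k ^ 4 := one_le_pow₀ (by linarith)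
      linarith
    exact le_mul_of_one_le_right hδ0.le this
  have hsub : ∀ x ∈ ball z δ₁, x ∈ ball (0 : ℂ) 1 := by
    intro x hx
    rw [mem_ball, dist_eq_norm] at hx
    rw [mem_ball_zero_iff]
    have : ‖x‖ ≤ ‖x - z‖ + ‖z‖ := by
      calc ‖x‖ = ‖(x - z) + z‖ := by rw [sub_add_cancel]
        _ ≤ _ := norm_add_le _ _
    linarith
  have hden : ∀ x ∈ ball z δ₁, A / 2 ≤ ‖P x * conj (P z) + Q x * conj (Q z)‖ := by
    intro x hx
    have hxδ : x ∈ ball z δ := ball_subset_ball hδ₁δ hx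
    rw [mem_ball, dist_eq_norm] at hx
    have hsmall : 3 * k / δ * ‖x - z‖ ≤ 3 / (16 * k ^ 3) := by
      calc 3 * k / δ * ‖x - z‖ ≤ 3 * k / δ * δ₁ := mul_le_mul_of_nonneg_left hx.le (by positivity)
        _ = 3 / (16 * k ^ 3) := by rw [hδ₁]; field_simp
    have h1 : ‖P x - P z‖ ≤ 3 / (16 * k ^ 3) := (hPs x hxδ).trans hsmall
    have h2 : ‖Q x - Q z‖ ≤ 3 / (16 * k ^ 3) := (hQs x hxδ).trans hsmall
    have e1 : P x * conj (P z) + Q x * conj (Q z) =
        (A : ℂ) + ((P x - P z) * conj (P z) + (Q x - Q z) * conj (Q z)) := by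
      rw [hAdef, Complex.ofReal_add, ← Complex.mul_conj, ← Complex.mul_conj]
      ring
    have h3 : ‖(P x - P z) * conj (P z) + (Q x - Q z) * conj (Q z)‖ ≤ 3 / 8 * (1 / k ^ 2) := by
      refine (norm_add_le _ _).trans ?_
      rw [norm_mul, norm_mul, Complex.norm_conj, Complex.norm_conj]
      have g1 : ‖P x - P z‖ * ‖P z‖ ≤ 3 / (16 * k ^ 3) * k :=
        mul_le_mul h1 hPz (norm_nonneg _) (by positivity)
      have g2 : ‖Q x - Q z‖ * ‖Q z‖ ≤ 3 / (16 * k ^ 3) * k :=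
        mul_le_mul h2 hQz (norm_nonneg _) (by positivity)
      have g3 : 3 / (16 * k ^ 3) * k + 3 / (16 * k ^ 3) * k = 3 / 8 * (1 / k ^ 2) := by
        field_simp
        norm_num
      linarith
    have h4 : A ≤ ‖P x * conj (P z) + Q x * conj (Q z)‖ +
        ‖(P x - P z) * conj (P z) + (Q x - Q z) * conj (Q z)‖ := by
      have g1 : (A : ℂ) = (P x * conj (P z) + Q x * conj (Q z)) -
          ((P x - P z) * conj (P z) + (Q x - Q z) * conj (Q z)) := by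
        rw [e1]; ring
      have g2 : A = ‖(A : ℂ)‖ := by
        rw [Complex.norm_real, Real.norm_eq_abs, abs_of_pos hApos]
      calc A = ‖(A : ℂ)‖ := g2
        _ ≤ _ := by rw [g1]; exact norm_sub_le _ _
    linarith
  have hne : ∀ x ∈ ball z δ₁, P x * conj (P z) + Q x * conj (Q z) ≠ 0 := by
    intro x hx h0
    have := hden x hx
    rw [h0, norm_zero] at this
    linarith
  have hzz : Hz P Q z z = 0 := by
    unfold Hz
    rw [show Q z * P z - P z * Q z = 0 by ring, zero_div]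
  obtain ⟨M, hM⟩ : ∃ M, M = 4 * k ^ 2 := ⟨_, rfl⟩
  have hM0 : 0 < M := by rw [hM]; positivity
  have hHb : ∀ x ∈ ball z δ₁, ‖Hz P Q z x - Hz P Q z z‖ ≤ M := by
    intro x hx
    rw [hzz, sub_zero]
    have h1 := IFT_lagrange (P x) (Q x) (P z) (Q z)
    have h2 := hden x hx
    have h3 := (hbd x (hsub x hx)).2.1
    have hn : ‖Q x * P z - P x * Q z‖ ^ 2 ≤ k ^ 2 * A := by
      rw [← Complex.normSq_eq_norm_sq]
      calc Complex.normSq (Q x * P z - P x * Q z) ≤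
            (Complex.normSq (P x) + Complex.normSq (Q x)) * A := by
              linarith [Complex.normSq_nonneg (P x * conj (P z) + Q x * conj (Q z))]
        _ ≤ k ^ 2 * A := mul_le_mul_of_nonneg_right h3 hApos.le
    have hn2 : ‖Q x * P z - P x * Q z‖ ≤ k ^ 2 * A := by
      apply le_of_sq_le_sq _ (by positivity)
      refine hn.trans ?_
      have h4 : 1 ≤ k ^ 2 * A := by
        have := mul_le_mul_of_nonneg_left hA1 (by positivity : (0 : ℝ) ≤ k ^ 2)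
        have e : k ^ 2 * (1 / k ^ 2) = 1 := by field_simp
        linarith
      calc k ^ 2 * A = (k ^ 2 * A) * 1 := by ring
        _ ≤ (k ^ 2 * A) * (k ^ 2 * A) := mul_le_mul_of_nonneg_left h4 (by positivity)
        _ = (k ^ 2 * A) ^ 2 := by ring
    unfold Hz
    rw [norm_div, div_le_iff₀ (by linarith), hM]
    calc ‖Q x * P z - P x * Q z‖ ≤ k ^ 2 * A := hn2
      _ ≤ 4 * k ^ 2 * (A / 2) := by
          have : 0 ≤ k ^ 2 * A := by positivity
          linarith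
      _ ≤ _ := mul_le_mul_of_nonneg_left h2 (by positivity)
  have hdiff : DifferentiableOn ℂ (Hz P Q z) (ball z δ₁) := by
    intro x hx
    exact ((hBRA P Q hA z hz).1 x (hsub x hx) (hne x hx)).1.differentiableWithinAt
  have hdz := ((hBRA P Q hA z hz).1 z hz (hne z (mem_ball_self hδ₁0))).2
  rw [hzz, map_zero] at hdz
  have hdz' : ‖deriv (Hz P Q z) z‖ ^ 2 = ‖Wr P Q z‖ ^ 2 / A ^ 2 := by
    rw [← Complex.normSq_eq_norm_sq, hdz]
    unfold sph
    rw [Complex.normSq_eq_norm_sq (Wr P Q z), ← hAdef]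
    ring
  have hWpos : 0 < ‖Wr P Q z‖ := norm_pos_iff.2 hW
  have hdne : deriv (Hz P Q z) z ≠ 0 := by
    intro h0
    rw [h0, norm_zero] at hdz'
    have : 0 < ‖Wr P Q z‖ ^ 2 / A ^ 2 := by positivity
    rw [← hdz'] at this
    norm_num at this
  obtain ⟨g, hg1, hg2, hg3⟩ := hQOM (Hz P Q z) z δ₁ M hδ₁0 hM0 hdiff hHb hdne
  rw [hzz] at hg1 hg2 hg3
  -- sizes
  have hexp : Real.exp (-(40 * E)) = 1 / k ^ 40 := by
    rw [hk, ← Real.exp_nat_mul, one_div, ← Real.exp_neg]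
    norm_num
  rw [hexp, ← hδ]
  have hle : 1 / k ^ 40 * δ ^ 2 * ‖Wr P Q z‖ ^ 2 ≤ ‖deriv (Hz P Q z) z‖ ^ 2 * δ₁ ^ 2 / (32 * M) := by
    rw [hdz', hδ₁, hM]
    have e1 : ‖Wr P Q z‖ ^ 2 / A ^ 2 * (δ / (16 * k ^ 4)) ^ 2 / (32 * (4 * k ^ 2)) =
        (1 / (32768 * k ^ 10 * A ^ 2)) * δ ^ 2 * ‖Wr P Q z‖ ^ 2 := by
      field_simp
      norm_num
    rw [e1]
    refine mul_le_mul_of_nonneg_right (mul_le_mul_of_nonneg_right ?_ (by positivity)) (by positivity)
    apply one_div_le_one_div_of_le (by positivity)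
    have h1 : A ^ 2 ≤ (k ^ 2) ^ 2 := pow_le_pow_left₀ hApos.le hA2 2
    have h2 : (32768 : ℝ) ≤ k ^ 15 := by
      calc (32768 : ℝ) = 2 ^ 15 := by norm_num
        _ ≤ k ^ 15 := pow_le_pow_left₀ (by norm_num) hk2 15
    have h3 : (1 : ℝ) ≤ k ^ 11 := one_le_pow₀ (by linarith)
    calc 32768 * k ^ 10 * A ^ 2 ≤ k ^ 15 * k ^ 10 * (k ^ 2) ^ 2 := by
          apply mul_le_mul _ h1 (by positivity) (by positivity)
          exact mul_le_mul_of_nonneg_right h2 (by positivity)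
      _ = k ^ 29 * 1 := by ring
      _ ≤ k ^ 29 * k ^ 11 := mul_le_mul_of_nonneg_left h3 (by positivity)
      _ = k ^ 40 := by ring
  have hle1 : 1 / k ^ 40 * δ ^ 2 * ‖Wr P Q z‖ ^ 2 ≤ 1 := by
    have h1 : ‖Wr P Q z‖ ≤ 6 * k ^ 2 / δ := by
      unfold Wr
      refine (norm_sub_le _ _).trans ?_
      rw [norm_mul, norm_mul]
      have g1 : ‖Q z‖ * ‖deriv P z‖ ≤ k * (3 * k / δ) :=
        mul_le_mul hQz hPd (norm_nonneg _) hk0.le
      have g2 : ‖P z‖ * ‖deriv Q z‖ ≤ k * (3 * k / δ) :=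
        mul_le_mul hPz hQd (norm_nonneg _) hk0.le
      have g3 : k * (3 * k / δ) + k * (3 * k / δ) = 6 * k ^ 2 / δ := by ring
      linarith
    have h2 : ‖Wr P Q z‖ ^ 2 ≤ (6 * k ^ 2 / δ) ^ 2 := pow_le_pow_left₀ (norm_nonneg _) h1 2
    calc 1 / k ^ 40 * δ ^ 2 * ‖Wr P Q z‖ ^ 2 ≤ 1 / k ^ 40 * δ ^ 2 * (6 * k ^ 2 / δ) ^ 2 :=
          mul_le_mul_of_nonneg_left h2 (by positivity)
      _ = 36 / k ^ 36 := by field_simp; norm_num
      _ ≤ 1 := by
          rw [div_le_one (by positivity)]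
          calc (36 : ℝ) ≤ 2 ^ 36 := by norm_num
            _ ≤ k ^ 36 := pow_le_pow_left₀ (by norm_num) hk2 36
  refine hrmax _ g hle1 ⟨hg1.mono (ball_subset_ball hle), hg2, ?_⟩
  intro t ht
  obtain ⟨h1, h2⟩ := hg3 t (ball_subset_ball hle ht)
  have h3 : g t ∈ ball z δ₁ := ball_subset_ball (by linarith) h1
  refine ⟨hsub _ h3, ?_⟩
  have h4 := hne _ h3
  unfold Hz at h2
  rw [div_eq_iff h4] at h2
  linear_combination -h2

end Pool.Agent.P2I
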